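import Mathlib

/-!
# Steinhaus surfaces: definitions

Definitions used in the statement: convex surfaces in Euclidean three-space, their intrinsic
distance, antipodes, Steinhaus surfaces, surfaces of revolution.
-/

set_option autoImplicit false

open Set
open scoped ENNReal

namespace Pool.Agent.MP_324c12_gt

/-- Euclidean three-space. -/
abbrev E3 := EuclideanSpace ℝ (Fin 3)

/-- A convex surface: the boundary of a compact convex set with nonempty interior in Euclidean
three-space. -/
def IsConvexSurface (S : Set E3) : Prop :=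
  ∃ K : Set E3, IsCompact K ∧ Convex ℝ K ∧ (interior K).Nonempty ∧ S = frontier K

/-- Intrinsic distance on a subset `S` of Euclidean three-space: the infimum of the lengths
(total variations over `[0, 1]`) of the continuous curves `[0, 1] → S` joining `p` to `q`. -/
noncomputable def intrinsicDist (S : Set E3) (p q : E3) : ℝ≥0∞ :=
  ⨅ γ : {γ : ℝ → E3 // ContinuousOn γ (Icc 0 1) ∧ (∀ t ∈ Icc (0 : ℝ) 1, γ t ∈ S) ∧
    γ 0 = p ∧ γ 1 = q}, eVariationOn γ.1 (Icc 0 1)

/-- The set `F_p` of antipodes of `p` on `S`: the points of `S` at maximal intrinsic distance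
from `p`. -/
def antipodes (S : Set E3) (p : E3) : Set E3 :=
  {q | q ∈ S ∧ ∀ x ∈ S, intrinsicDist S p x ≤ intrinsicDist S p q}

/-- A Steinhaus surface: a convex surface on which every point `p` has exactly one antipode `q`,
and `p` is the only antipode of `q`. -/
def IsSteinhaus (S : Set E3) : Prop :=
  IsConvexSurface S ∧ ∀ p ∈ S, ∃ q, antipodes S p = {q} ∧ antipodes S q = {p}

/-- The linear map of Euclidean three-space with matrix `M`. -/
def applyMatrix (M : Matrix (Fin 3) (Fin 3) ℝ) (v : E3) : E3 :=
  WithLp.toLp 2 (M.mulVec v.ofLp)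

/-- `S` is a surface of revolution: there is a line `ℓ = {c + t • w}` (`w ≠ 0`) such that `S` is
mapped onto itself by every rotation `x ↦ c + M (x - c)` about `ℓ`; here `M` runs over the matrices
in `SO(3)` with `M w = w`. -/
def IsSurfaceOfRevolution (S : Set E3) : Prop :=
  ∃ c w : E3, w ≠ 0 ∧ ∀ M ∈ Matrix.specialOrthogonalGroup (Fin 3) ℝ, applyMatrix M w = w →
    (fun x => c + applyMatrix M (x - c)) '' S = S

end Pool.Agent.MP_324c12_gt
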