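import Mathlib
import Pool.Agent.MP_324c12_gt.Defs

set_option autoImplicit false

open Set Filter Topology
open scoped ENNReal NNReal

namespace Pool.Agent.MP_324c12_gt

theorem intrinsicDist_le {S : Set E3} {p q : E3} {γ : ℝ → E3}
    (h1 : ContinuousOn γ (Icc 0 1)) (h2 : ∀ t ∈ Icc (0 : ℝ) 1, γ t ∈ S)
    (h3 : γ 0 = p) (h4 : γ 1 = q) : intrinsicDist S p q ≤ eVariationOn γ (Icc 0 1) :=
  iInf_le (fun γ : {γ : ℝ → E3 // ContinuousOn γ (Icc 0 1) ∧ (∀ t ∈ Icc (0 : ℝ) 1, γ t ∈ S) ∧
    γ 0 = p ∧ γ 1 = q} => eVariationOn γ.1 (Icc 0 1)) ⟨γ, h1, h2, h3, h4⟩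

/-- triangle inequality -/
theorem intrinsicDist_triangle (S : Set E3) (p q r : E3) :
    intrinsicDist S p r ≤ intrinsicDist S p q + intrinsicDist S q r := by
  conv_rhs => unfold intrinsicDist
  refine ENNReal.le_iInf_add_iInf ?_
  rintro ⟨γ₁, hc1, hS1, h10, h11⟩ ⟨γ₂, hc2, hS2, h20, h21⟩
  simp only
  set γ : ℝ → E3 := fun t => if t ≤ 1 / 2 then γ₁ (2 * t) else γ₂ (2 * t - 1) with hγ
  have e1 : EqOn γ (γ₁ ∘ fun t => 2 * t) (Icc 0 (1 / 2)) := by
    intro t ht
    simp only [hγ, Function.comp]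
    rw [if_pos ht.2]
  have e2 : EqOn γ (γ₂ ∘ fun t => 2 * t - 1) (Icc (1 / 2) 1) := by
    intro t ht
    simp only [hγ, Function.comp]
    by_cases h : t ≤ 1 / 2
    · have : t = 1 / 2 := le_antisymm h ht.1
      subst this
      rw [if_pos le_rfl]
      norm_num
      rw [h11, h20]
    · rw [if_neg h]
  have m1 : MapsTo (fun t : ℝ => 2 * t) (Icc 0 (1 / 2)) (Icc 0 1) := by
    intro t ht
    constructor <;> simp only <;> linarith [ht.1, ht.2]
  have m2 : MapsTo (fun t : ℝ => 2 * t - 1) (Icc (1 / 2) 1) (Icc 0 1) := by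
    intro t ht
    constructor <;> simp only <;> linarith [ht.1, ht.2]
  have hun : Icc (0 : ℝ) 1 = Icc 0 (1 / 2) ∪ Icc (1 / 2) 1 := by
    rw [Icc_union_Icc_eq_Icc] <;> norm_num
  have c1 : ContinuousOn γ (Icc 0 (1 / 2)) :=
    (hc1.comp (by fun_prop) m1).congr e1
  have c2 : ContinuousOn γ (Icc (1 / 2) 1) :=
    (hc2.comp (by fun_prop) m2).congr e2
  have hc : ContinuousOn γ (Icc 0 1) := by
    rw [hun]
    exact c1.union_of_isClosed c2 isClosed_Icc isClosed_Icc
  have hS : ∀ t ∈ Icc (0 : ℝ) 1, γ t ∈ S := by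
    intro t ht
    rw [hun] at ht
    rcases ht with ht | ht
    · rw [e1 ht]; exact hS1 _ (m1 ht)
    · rw [e2 ht]; exact hS2 _ (m2 ht)
  have h0 : γ 0 = p := by
    rw [e1 ⟨le_rfl, by norm_num⟩]; simp [h10]
  have h1 : γ 1 = r := by
    rw [e2 ⟨by norm_num, le_rfl⟩]; simp only [Function.comp]; norm_num; exact h21
  refine (intrinsicDist_le hc hS h0 h1).trans ?_
  have hadd := eVariationOn.Icc_add_Icc γ (s := univ) (a := 0) (b := 1 / 2) (c := 1)
    (by norm_num) (by norm_num) (mem_univ _)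
  simp only [univ_inter] at hadd
  rw [← hadd]
  refine add_le_add ?_ ?_
  · rw [eVariationOn.congr e1]
    exact eVariationOn.comp_le_of_monotoneOn _ _ (fun x _ y _ h => by linarith) m1
  · rw [eVariationOn.congr e2]
    exact eVariationOn.comp_le_of_monotoneOn _ _ (fun x _ y _ h => by linarith) m2

theorem intrinsicDist_comm_le (S : Set E3) (p q : E3) :
    intrinsicDist S p q ≤ intrinsicDist S q p := by
  conv_rhs => unfold intrinsicDist
  refine le_iInf ?_
  rintro ⟨γ, hc, hS, h0, h1⟩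
  have m : MapsTo (fun t : ℝ => 1 - t) (Icc 0 1) (Icc 0 1) := by
    intro t ht
    constructor <;> simp only <;> linarith [ht.1, ht.2]
  refine (intrinsicDist_le (γ := γ ∘ fun t => 1 - t) (hc.comp (by fun_prop) m)
    (fun t ht => hS _ (m ht)) (by simp [h1]) (by simp [h0])).trans ?_
  exact eVariationOn.comp_le_of_antitoneOn _ _ (fun x _ y _ h => by linarith) m

theorem intrinsicDist_comm (S : Set E3) (p q : E3) :
    intrinsicDist S p q = intrinsicDist S q p :=
  le_antisymm (intrinsicDist_comm_le S p q) (intrinsicDist_comm_le S q p)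

/-- a segment contained in `S` bounds the intrinsic distance -/
theorem intrinsicDist_le_of_segment {S : Set E3} {p q : E3} (h : segment ℝ p q ⊆ S) :
    intrinsicDist S p q ≤ edist p q := by
  have hl : LipschitzWith (nndist p q) (AffineMap.lineMap p q : ℝ → E3) := lipschitzWith_lineMap p q
  refine (intrinsicDist_le (γ := fun t => AffineMap.lineMap p q t) ?_ ?_ ?_ ?_).trans ?_
  · exact hl.continuous.continuousOn
  · intro t ht
    apply h
    rw [segment_eq_image_lineMap]
    exact mem_image_of_mem _ ht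
  · simp
  · simp
  · have h2 := (hl.lipschitzOnWith (s := univ)).comp_eVariationOn_le (g := fun t : ℝ => t)
      (s := Icc (0 : ℝ) 1) (mapsTo_univ _ _)
    refine h2.trans ?_
    have h3 : eVariationOn (fun t : ℝ => t) (Icc (0 : ℝ) 1) ≤ ENNReal.ofReal (1 - 0) := by
      have h4 := MonotoneOn.eVariationOn_eq (f := fun t : ℝ => t) (s := Icc (0 : ℝ) 1)
        (fun x _ y _ h => h) (left_mem_Icc.2 zero_le_one) (right_mem_Icc.2 zero_le_one)
      rw [inter_self] at h4
      exact h4.le
    calc _ ≤ (nndist p q : ℝ≥0∞) * ENNReal.ofReal (1 - 0) := by gcongr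
      _ = edist p q := by
        rw [edist_nndist]; norm_num

/-- A curve along which `G` is locally non-expanding up to a factor `C` -/
theorem edist_le_of_local {F : Type*} [PseudoEMetricSpace F] {γ : ℝ → E3} {G : ℝ → F} {C : ℝ≥0∞}
    (hG : ContinuousOn G (Icc 0 1))
    (hloc : ∀ t ∈ Icc (0 : ℝ) 1, ∀ᶠ t' in 𝓝[Icc 0 1] t, edist (G t) (G t') ≤ C * edist (γ t) (γ t')) :
    edist (G 0) (G 1) ≤ C * eVariationOn γ (Icc 0 1) := by
  set A : Set ℝ := {t | ∀ s ∈ Icc 0 t, edist (G 0) (G s) ≤ C * eVariationOn γ (Icc 0 s)} with hA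
  have hVmono : ∀ s t : ℝ, s ≤ t → eVariationOn γ (Icc 0 s) ≤ eVariationOn γ (Icc 0 t) :=
    fun s t h => eVariationOn.mono _ (Icc_subset_Icc_right h)
  have hsub : Icc (0 : ℝ) 1 ⊆ A := by
    refine IsClosed.Icc_subset_of_forall_exists_gt ?_ ?_ ?_
    · refine isClosed_of_closure_subset ?_
      intro t ht
      have ht1 : t ∈ Icc (0 : ℝ) 1 :=
        closure_minimal inter_subset_right isClosed_Icc ht
      have key : ∀ s ∈ Ico 0 t, edist (G 0) (G s) ≤ C * eVariationOn γ (Icc 0 s) := by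
        intro s hs
        obtain ⟨t', ht', ht'A⟩ := mem_closure_iff.1 ht (Ioi s) isOpen_Ioi hs.2
        exact ht'A.1 s ⟨hs.1, ht'.le⟩
      refine ⟨?_, ht1⟩
      intro s hs
      rcases lt_or_eq_of_le hs.2 with h | h
      · exact key s ⟨hs.1, h⟩
      · subst h
        rcases eq_or_lt_of_le hs.1 with h0 | h0
        · rw [← h0]; simp
        · have hne : (𝓝[Ico 0 s] s).NeBot := by
            rw [← mem_closure_iff_nhdsWithin_neBot, closure_Ico h0.ne]
            exact ⟨hs.1, le_rfl⟩
          have hcont : Tendsto (fun u => edist (G 0) (G u)) (𝓝[Ico 0 s] s)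
              (𝓝 (edist (G 0) (G s))) := by
            have h3 : Tendsto G (𝓝[Ico 0 s] s) (𝓝 (G s)) :=
              (hG s ht1).mono_left (nhdsWithin_mono _
                (fun u hu => ⟨hu.1, hu.2.le.trans ht1.2⟩))
            exact (tendsto_const_nhds).edist h3
          refine le_of_tendsto hcont ?_
          filter_upwards [self_mem_nhdsWithin] with u hu
          exact (key u hu).trans (by gcongr; exact hVmono _ _ hu.2.le)
    · intro s hs
      have : s = 0 := le_antisymm hs.2 hs.1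
      subst this
      simp
    · rintro x ⟨hxA, hx⟩ y hy
      have h := hloc x ⟨hx.1, hx.2.le⟩
      rw [eventually_nhdsWithin_iff, Metric.eventually_nhds_iff] at h
      obtain ⟨δ, hδ, h⟩ := h
      refine ⟨min y (min 1 (x + δ / 2)), ?_, ?_, min_le_left _ _⟩
      · intro s hs
        by_cases hsx : s ≤ x
        · exact hxA s ⟨hs.1, hsx⟩
        · push Not at hsx
          have hs1 : s ≤ 1 := hs.2.trans ((min_le_right _ _).trans (min_le_left _ _))
          have hs2 : s ≤ x + δ / 2 := hs.2.trans ((min_le_right _ _).trans (min_le_right _ _))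
          have h1 : edist (G x) (G s) ≤ C * edist (γ x) (γ s) := by
            apply h
            · rw [Real.dist_eq, abs_lt]; constructor <;> linarith
            · exact ⟨hs.1, hs1⟩
          have h2 : edist (γ x) (γ s) ≤ eVariationOn γ (Icc x s) :=
            eVariationOn.edist_le _ ⟨le_rfl, hsx.le⟩ ⟨hsx.le, le_rfl⟩
          have hadd := eVariationOn.Icc_add_Icc γ (s := univ) (a := 0) (b := x) (c := s)
            hx.1 hsx.le (mem_univ _)
          simp only [univ_inter] at hadd
          calc edist (G 0) (G s) ≤ edist (G 0) (G x) + edist (G x) (G s) := edist_triangle _ _ _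
            _ ≤ C * eVariationOn γ (Icc 0 x) + C * eVariationOn γ (Icc x s) := by
              refine add_le_add (hxA x ⟨hx.1, le_rfl⟩) (h1.trans ?_)
              gcongr
            _ = C * eVariationOn γ (Icc 0 s) := by rw [← mul_add, hadd]
      · simp only [lt_min_iff]
        refine ⟨hy, hx.2, by linarith⟩
  exact hsub ⟨zero_le_one, le_rfl⟩ 1 ⟨zero_le_one, le_rfl⟩

end Pool.Agent.MP_324c12_gt
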