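import Mathlib
import Pool.Agent.MP_324c12_gt.Part1

set_option autoImplicit false

open Set Filter Topology InnerProductGeometry
open scoped ENNReal NNReal RealInnerProductSpace

namespace Pool.Agent.MP_324c12_gt

/-- For unit vectors the angle is `2 arcsin (‖u - v‖ / 2)`. -/
theorem angle_eq_arcsin {u v : E3} (hu : ‖u‖ = 1) (hv : ‖v‖ = 1) :
    angle u v = 2 * Real.arcsin (‖u - v‖ / 2) := by
  have h1 : ‖u - v‖ ^ 2 = 2 - 2 * Real.cos (angle u v) := by
    have := norm_sub_sq_real u v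
    rw [this, hu, hv, ← cos_angle_mul_norm_mul_norm, hu, hv]
    ring
  have h0 := angle_nonneg u v
  have hpi := angle_le_pi u v
  have h2 : Real.sin (angle u v / 2) = ‖u - v‖ / 2 := by
    have hs : 0 ≤ Real.sin (angle u v / 2) :=
      Real.sin_nonneg_of_nonneg_of_le_pi (by linarith) (by linarith)
    have hc : Real.cos (angle u v) = 1 - 2 * Real.sin (angle u v / 2) ^ 2 := by
      have h3 := Real.cos_two_mul (angle u v / 2)
      have h4 := Real.sin_sq_add_cos_sq (angle u v / 2)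
      have h5 : 2 * (angle u v / 2) = angle u v := by ring
      rw [h5] at h3
      nlinarith
    have h6 : Real.sin (angle u v / 2) ^ 2 = (‖u - v‖ / 2) ^ 2 := by nlinarith
    exact (pow_left_inj₀ hs (by positivity) two_ne_zero).1 h6
  have h7 : Real.arcsin (‖u - v‖ / 2) = angle u v / 2 := by
    rw [← h2]
    exact Real.arcsin_sin (by linarith [Real.pi_pos]) (by linarith)
  rw [h7]; ring

theorem angle_le_of_close {ε : ℝ} (hε : 0 < ε) :
    ∃ δ > 0, ∀ u v : E3, ‖u‖ = 1 → ‖v‖ = 1 → ‖u - v‖ < δ → angle u v ≤ (1 + ε) * ‖u - v‖ := by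
  have hd : HasDerivAt Real.arcsin 1 0 := by
    have := Real.hasDerivAt_arcsin (x := 0) (by norm_num) (by norm_num)
    simpa using this
  have h1 := hd.isLittleO.def hε
  rw [Metric.eventually_nhds_iff] at h1
  obtain ⟨δ, hδ, h⟩ := h1
  refine ⟨2 * δ, by linarith, ?_⟩
  intro u v hu hv huv
  rw [angle_eq_arcsin hu hv]
  have h2 := @h (‖u - v‖ / 2) (by
    rw [Real.dist_eq, abs_lt]; constructor <;> [linarith [norm_nonneg (u - v)]; linarith])
  simp only [sub_zero, Real.arcsin_zero, smul_eq_mul, mul_one, Real.norm_eq_abs] at h2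
  have h3 := (abs_le.1 h2).2
  rw [abs_of_nonneg (by positivity)] at h3
  nlinarith

/-- Lower bound for the intrinsic distance by comparison with a round sphere of radius `R`. -/
theorem le_intrinsicDist {S : Set E3} {Ψ : E3 → E3} {R : ℝ} (hR : 0 < R)
    (hΨ : ∀ x ∈ S, ‖Ψ x‖ = R)
    (hloc : ∀ x ∈ S, ∀ᶠ y in 𝓝[S] x, ‖Ψ x - Ψ y‖ ≤ ‖x - y‖) {p q : E3}
    (hpq : Ψ q = - Ψ p) : ENNReal.ofReal (Real.pi * R) ≤ intrinsicDist S p q := by
  unfold intrinsicDist
  refine le_iInf ?_
  rintro ⟨γ, hc, hS, h0, h1⟩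
  simp only
  rcases eq_or_ne (eVariationOn γ (Icc 0 1)) ⊤ with htop | htop
  · rw [htop]; exact le_top
  have hp : p ∈ S := by rw [← h0]; exact hS 0 ⟨le_rfl, zero_le_one⟩
  -- the normalised map
  set v : ℝ → E3 := fun t => R⁻¹ • Ψ (γ t) with hv
  have hv1 : ∀ t ∈ Icc (0 : ℝ) 1, ‖v t‖ = 1 := by
    intro t ht
    simp only [hv, norm_smul, norm_inv, Real.norm_eq_abs, abs_of_pos hR, hΨ _ (hS t ht)]
    exact inv_mul_cancel₀ hR.ne'
  have hvloc : ∀ t ∈ Icc (0 : ℝ) 1, ∀ᶠ t' in 𝓝[Icc 0 1] t,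
      ‖v t - v t'‖ ≤ R⁻¹ * ‖γ t - γ t'‖ := by
    intro t ht
    have h2 : Tendsto γ (𝓝[Icc 0 1] t) (𝓝[S] (γ t)) :=
      tendsto_nhdsWithin_of_tendsto_nhds_of_eventually_within _ (hc t ht)
        (by filter_upwards [self_mem_nhdsWithin] with t' ht' using hS t' ht')
    filter_upwards [h2.eventually (hloc _ (hS t ht))] with t' ht'
    simp only [hv, ← smul_sub, norm_smul, norm_inv, Real.norm_eq_abs, abs_of_pos hR]
    gcongr
  have hγt : ∀ t ∈ Icc (0 : ℝ) 1, Tendsto (fun t' => ‖γ t - γ t'‖) (𝓝[Icc 0 1] t) (𝓝 0) := by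
    intro t ht
    have := (tendsto_const_nhds (x := γ t)).sub (hc t ht)
    simpa using this.norm
  have hmain : ∀ ε > 0, ENNReal.ofReal Real.pi ≤
      ENNReal.ofReal ((1 + ε) * R⁻¹) * eVariationOn γ (Icc 0 1) := by
    intro ε hε
    obtain ⟨δ, hδ, hang⟩ := angle_le_of_close hε
    set G : ℝ → ℝ := fun t => angle (v t) (v 0) with hG
    have hGloc : ∀ t ∈ Icc (0 : ℝ) 1, ∀ᶠ t' in 𝓝[Icc 0 1] t,
        |G t - G t'| ≤ (1 + ε) * R⁻¹ * ‖γ t - γ t'‖ := by
      intro t ht
      have h3 : ∀ᶠ t' in 𝓝[Icc 0 1] t, R⁻¹ * ‖γ t - γ t'‖ < δ := by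
        have := (hγt t ht).const_mul R⁻¹
        rw [mul_zero] at this
        exact this.eventually_lt_const hδ
      filter_upwards [hvloc t ht, h3, self_mem_nhdsWithin] with t' h4 h5 h6
      have h7 : angle (v t) (v t') ≤ (1 + ε) * ‖v t - v t'‖ :=
        hang _ _ (hv1 t ht) (hv1 t' h6) (h4.trans_lt h5)
      have h8 : |G t - G t'| ≤ angle (v t) (v t') := by
        rw [abs_le]
        have h9 := angle_le_angle_add_angle (v t) (v t') (v 0)
        have h10 := angle_le_angle_add_angle (v t') (v t) (v 0)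
        rw [angle_comm (v t') (v t)] at h10
        simp only [hG]
        constructor <;> linarith
      calc |G t - G t'| ≤ (1 + ε) * ‖v t - v t'‖ := h8.trans h7
        _ ≤ (1 + ε) * (R⁻¹ * ‖γ t - γ t'‖) := by gcongr
        _ = _ := by ring
    have hGc : ContinuousOn G (Icc 0 1) := by
      intro t ht
      rw [ContinuousWithinAt, tendsto_iff_dist_tendsto_zero]
      have h3 := (hγt t ht).const_mul ((1 + ε) * R⁻¹)
      rw [mul_zero] at h3
      refine squeeze_zero' (Eventually.of_forall fun _ => dist_nonneg) ?_ h3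
      filter_upwards [hGloc t ht] with t' h4
      rwa [Real.dist_eq, abs_sub_comm]
    have h5 := edist_le_of_local (γ := γ) (G := G) (C := ENNReal.ofReal ((1 + ε) * R⁻¹)) hGc (by
      intro t ht
      filter_upwards [hGloc t ht] with t' h4
      rw [edist_dist, edist_dist, Real.dist_eq, dist_eq_norm,
        ← ENNReal.ofReal_mul (by positivity)]
      exact ENNReal.ofReal_le_ofReal h4)
    have h6 : edist (G 0) (G 1) = ENNReal.ofReal Real.pi := by
      have hv0 : v 0 ≠ 0 := by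
        intro h
        have := hv1 0 ⟨le_rfl, zero_le_one⟩
        rw [h] at this; simp at this
      have hv10 : v 1 = - v 0 := by
        simp only [hv, h0, h1, hpq, smul_neg]
      simp only [hG, hv10, angle_neg_self_of_nonzero hv0, angle_self hv0]
      rw [edist_dist, Real.dist_eq]
      simp [abs_of_pos Real.pi_pos]
    rwa [h6] at h5
  lift eVariationOn γ (Icc 0 1) to ℝ≥0 using htop with V hV
  have h3 : ∀ ε > 0, Real.pi * R ≤ (1 + ε) * (V : ℝ) := by
    intro ε hε
    have h4 := hmain ε hε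
    rw [← ENNReal.ofReal_coe_nnreal, ← ENNReal.ofReal_mul (by positivity),
      ENNReal.ofReal_le_ofReal_iff (by positivity)] at h4
    calc Real.pi * R ≤ ((1 + ε) * R⁻¹ * V) * R := by gcongr
      _ = (1 + ε) * V := by field_simp
  have h4 : Real.pi * R ≤ V := by
    refine le_of_forall_pos_le_add ?_
    intro η hη
    have h5 := h3 (η / (V + 1)) (by positivity)
    have h6 : η / ((V : ℝ) + 1) * V ≤ η := by
      rw [div_mul_eq_mul_div, div_le_iff₀ (by positivity)]
      nlinarith [V.2]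
    nlinarith
  rw [← ENNReal.ofReal_coe_nnreal]
  exact ENNReal.ofReal_le_ofReal h4

end Pool.Agent.MP_324c12_gt
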