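import Mathlib
import Pool.Agent.MP_324c12_gt.Part2

set_option autoImplicit false

open Set Filter Topology InnerProductGeometry
open scoped ENNReal NNReal RealInnerProductSpace

namespace Pool.Agent.MP_324c12_gt

/-- parameters of the surface -/
structure Par where
  m : ℝ
  A : ℝ
  H : ℝ
  hm : 0 < m
  hmH : m < H
  hA : A ^ 2 = 1 + m ^ 2
  hA0 : 0 < A
  hR : 2 * (A + H) ≤ Real.pi * (A - m)

namespace Par
variable (P : Par)

noncomputable def ρ : ℝ := P.A + P.H
noncomputable def R : ℝ := 2 * P.ρ / Real.pi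

theorem hmA : P.m < P.A := by nlinarith [P.hm, P.hA, P.hA0]
theorem hmA1 : (P.A - P.m) * (P.A + P.m) = 1 := by nlinarith [P.hA]
theorem one_lt_A : 1 < P.A := by nlinarith [P.hm, P.hA, P.hA0]
theorem H_pos : 0 < P.H := P.hm.trans P.hmH
theorem ρ_pos : 0 < P.ρ := by unfold ρ; linarith [P.hA0, P.H_pos]
theorem R_pos : 0 < P.R := by unfold R; have := P.ρ_pos; positivity
theorem R_le : P.R ≤ P.A - P.m := by
  unfold R
  rw [div_le_iff₀ Real.pi_pos]
  have := P.hR
  unfold ρ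
  linarith
theorem two_rho : 2 * P.ρ = Real.pi * P.R := by
  unfold R; field_simp

/-- The convex body: a round solid cylinder cut by two planes. -/
def K : Set E3 := {p | p 0 ^ 2 + p 1 ^ 2 ≤ 1 ∧ |p 2| ≤ P.H - P.m * p 0}

/-- The surface. -/
def S : Set E3 := frontier P.K

def T : Set E3 := {p | p 0 ^ 2 + p 1 ^ 2 ≤ 1 ∧ p 2 = P.H - P.m * p 0}
def W : Set E3 := {p | p 0 ^ 2 + p 1 ^ 2 = 1 ∧ |p 2| ≤ P.H - P.m * p 0}
def B : Set E3 := {p | p 0 ^ 2 + p 1 ^ 2 ≤ 1 ∧ p 2 = -(P.H - P.m * p 0)}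

theorem height_pos {p : E3} (hp : p 0 ^ 2 + p 1 ^ 2 ≤ 1) : 0 < P.H - P.m * p 0 := by
  have h1 : p 0 ≤ 1 := by nlinarith [sq_nonneg (p 1), sq_nonneg (p 0 - 1)]
  nlinarith [P.hm, P.hmH]

theorem tau_pos {p : E3} (hp : p 0 ^ 2 + p 1 ^ 2 ≤ 1) : P.A - P.m ≤ P.A + P.m * p 0 := by
  have h1 : -1 ≤ p 0 := by nlinarith [sq_nonneg (p 1), sq_nonneg (p 0 + 1)]
  nlinarith [P.hm, P.hmH]

theorem cont0 : Continuous fun p : E3 => p 0 ^ 2 + p 1 ^ 2 := by fun_prop
theorem cont1 : Continuous fun p : E3 => |p 2| := by fun_prop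
theorem cont2 : Continuous fun p : E3 => P.H - P.m * p 0 := by fun_prop

theorem isClosed_K : IsClosed P.K :=
  (isClosed_le cont0 continuous_const).inter (isClosed_le cont1 P.cont2)

theorem isClosed_T : IsClosed P.T :=
  (isClosed_le cont0 continuous_const).inter
    (isClosed_eq (by fun_prop : Continuous fun p : E3 => p 2) P.cont2)

theorem isClosed_W : IsClosed P.W :=
  (isClosed_eq cont0 continuous_const).inter (isClosed_le cont1 P.cont2)

theorem isClosed_B : IsClosed P.B :=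
  (isClosed_le cont0 continuous_const).inter
    (isClosed_eq (by fun_prop : Continuous fun p : E3 => p 2) P.cont2.neg)

theorem isOpen_U : IsOpen {p : E3 | p 0 ^ 2 + p 1 ^ 2 < 1 ∧ |p 2| < P.H - P.m * p 0} :=
  (isOpen_lt cont0 continuous_const).inter (isOpen_lt cont1 P.cont2)

theorem interior_K : interior P.K = {p : E3 | p 0 ^ 2 + p 1 ^ 2 < 1 ∧ |p 2| < P.H - P.m * p 0} := by
  apply Subset.antisymm
  · intro p hp
    have hpK := interior_subset hp
    have hev : ∀ u : E3, ∃ t : ℝ, 0 < t ∧ p + t • u ∈ P.K := by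
      intro u
      have hcont : Tendsto (fun t : ℝ => p + t • u) (𝓝[>] 0) (𝓝 p) := by
        have : Tendsto (fun t : ℝ => p + t • u) (𝓝 0) (𝓝 (p + (0 : ℝ) • u)) :=
          (Continuous.tendsto (by fun_prop) 0)
        simp only [zero_smul, add_zero] at this
        exact this.mono_left nhdsWithin_le_nhds
      have h1 := hcont.eventually (mem_interior_iff_mem_nhds.1 hp)
      have h2 := (h1.and self_mem_nhdsWithin).exists
      obtain ⟨t, ht, ht0⟩ := h2
      exact ⟨t, ht0, ht⟩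
    refine ⟨lt_of_le_of_ne hpK.1 ?_, lt_of_le_of_ne hpK.2 ?_⟩
    · intro h
      obtain ⟨t, ht, htK⟩ := hev !₂[p 0, p 1, 0]
      have := htK.1
      simp at this
      have h5 : (1 + t) ^ 2 * (p 0 ^ 2 + p 1 ^ 2) ≤ 1 := by linarith
      rw [h] at h5
      nlinarith
    · intro h
      rcases le_total 0 (p 2) with h0 | h0
      · obtain ⟨t, ht, htK⟩ := hev !₂[0, 0, 1]
        have := htK.2
        simp at this
        rw [abs_of_nonneg h0] at h
        rw [abs_of_nonneg (by linarith)] at this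
        linarith
      · obtain ⟨t, ht, htK⟩ := hev !₂[0, 0, -1]
        have := htK.2
        simp at this
        rw [abs_of_nonpos h0] at h
        rw [abs_of_nonpos (by linarith)] at this
        linarith
  · apply interior_maximal _ P.isOpen_U
    intro p hp
    exact ⟨hp.1.le, hp.2.le⟩

theorem mem_S {p : E3} : p ∈ P.S ↔ p ∈ P.T ∨ p ∈ P.W ∨ p ∈ P.B := by
  unfold S
  rw [P.isClosed_K.frontier_eq, P.interior_K]
  constructor
  · rintro ⟨⟨h1, h2⟩, h3⟩
    have h3 : p 0 ^ 2 + p 1 ^ 2 < 1 → P.H - P.m * p 0 ≤ |p 2| := fun h => not_lt.1 fun h' => h3 ⟨h, h'⟩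
    rcases lt_or_eq_of_le h1 with h | h
    · have h4 := le_antisymm h2 (h3 h)
      rcases le_total 0 (p 2) with h0 | h0
      · left
        rw [abs_of_nonneg h0] at h4
        exact ⟨h1, h4⟩
      · right; right
        rw [abs_of_nonpos h0] at h4
        exact ⟨h1, by linarith⟩
    · right; left
      exact ⟨h, h2⟩
  · rintro (h | h | h)
    · have h1 := P.height_pos h.1
      have h2 : |p 2| = P.H - P.m * p 0 := by rw [h.2, abs_of_pos h1]
      refine ⟨⟨h.1, h2.le⟩, fun h3 => ?_⟩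
      exact absurd h2 h3.2.ne
    · refine ⟨⟨h.1.le, h.2⟩, fun h3 => ?_⟩
      exact absurd h.1 h3.1.ne
    · have h1 := P.height_pos h.1
      have h2 : |p 2| = P.H - P.m * p 0 := by rw [h.2, abs_neg, abs_of_pos h1]
      refine ⟨⟨h.1, h2.le⟩, fun h3 => ?_⟩
      exact absurd h2 h3.2.ne

theorem isBounded_K : Bornology.IsBounded P.K := by
  rw [Metric.isBounded_iff_subset_closedBall 0]
  refine ⟨2 + P.H + P.m, ?_⟩
  intro p hp
  rw [mem_closedBall_zero_iff, EuclideanSpace.norm_eq, Fin.sum_univ_three]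
  have h1 := hp.1
  have h2 := hp.2
  have h3 : -1 ≤ p 0 := by nlinarith [sq_nonneg (p 1), sq_nonneg (p 0 + 1)]
  have h4 : |p 2| ≤ P.H + P.m := by nlinarith [P.hm]
  have h5 : p 2 ^ 2 ≤ (P.H + P.m) ^ 2 := by
    rw [← sq_abs]
    exact pow_le_pow_left₀ (abs_nonneg _) h4 2
  apply Real.sqrt_le_iff.2
  simp only [Real.norm_eq_abs, sq_abs]
  constructor
  · linarith [P.H_pos, P.hm]
  · nlinarith [P.H_pos, P.hm]

theorem isCompact_K : IsCompact P.K :=
  Metric.isCompact_of_isClosed_isBounded P.isClosed_K P.isBounded_K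

theorem convex_disc {x y : E3} {a b : ℝ} (hx : x 0 ^ 2 + x 1 ^ 2 ≤ 1) (hy : y 0 ^ 2 + y 1 ^ 2 ≤ 1)
    (ha : 0 ≤ a) (hb : 0 ≤ b) (hab : a + b = 1) :
    (a * x 0 + b * y 0) ^ 2 + (a * x 1 + b * y 1) ^ 2 ≤ 1 := by
  have hb' : b = 1 - a := by linarith
  subst hb'
  have h1 : 0 ≤ a * (1 - a) * ((x 0 - y 0) ^ 2 + (x 1 - y 1) ^ 2) := by positivity
  have h2 : a * (x 0 ^ 2 + x 1 ^ 2) ≤ a * 1 := by gcongr
  have h3 : (1 - a) * (y 0 ^ 2 + y 1 ^ 2) ≤ (1 - a) * 1 := by gcongr
  nlinarith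

theorem convex_K : Convex ℝ P.K := by
  intro x hx y hy a b ha hb hab
  refine ⟨?_, ?_⟩
  · simpa using convex_disc hx.1 hy.1 ha hb hab
  · simp only [PiLp.add_apply, PiLp.smul_apply, smul_eq_mul]
    have h1 := hx.2
    have h2 := hy.2
    calc |a * x 2 + b * y 2| ≤ a * |x 2| + b * |y 2| := by
          refine (abs_add_le _ _).trans ?_
          rw [abs_mul, abs_mul, abs_of_nonneg ha, abs_of_nonneg hb]
      _ ≤ a * (P.H - P.m * x 0) + b * (P.H - P.m * y 0) := by gcongr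
      _ = P.H - P.m * (a * x 0 + b * y 0) := by
          linear_combination (P.H) * hab

theorem convex_T : Convex ℝ P.T := by
  intro x hx y hy a b ha hb hab
  refine ⟨?_, ?_⟩
  · simpa using convex_disc hx.1 hy.1 ha hb hab
  · simp only [PiLp.add_apply, PiLp.smul_apply, smul_eq_mul]
    rw [hx.2, hy.2]
    linear_combination (P.H) * hab

theorem interior_K_nonempty : (interior P.K).Nonempty := by
  refine ⟨0, ?_⟩
  rw [P.interior_K]
  simp [P.H_pos]

end Par

end Pool.Agent.MP_324c12_gt
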