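import Mathlib
import Pool.Agent.MP_324c12_gt.Part3

set_option autoImplicit false

open Set Filter Topology InnerProductGeometry
open scoped ENNReal NNReal RealInnerProductSpace

namespace Pool.Agent.MP_324c12_gt
namespace Par
variable (P : Par)

/-! ### The comparison map to the round sphere -/

/-- planar radius -/
noncomputable def rad (p : E3) : ℝ := √((P.A * p 0 + P.m) ^ 2 + p 1 ^ 2)

/-- factor on the two flat faces -/
noncomputable def kT (p : E3) : ℝ := P.R * Real.sin (P.rad p / P.R) / P.rad p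

noncomputable def ΨT (p : E3) : E3 :=
  !₂[P.kT p * (P.A * p 0 + P.m), P.kT p * p 1, P.R * Real.cos (P.rad p / P.R)]

noncomputable def ΨB (p : E3) : E3 :=
  !₂[P.kT p * (P.A * p 0 + P.m), P.kT p * p 1, -(P.R * Real.cos (P.rad p / P.R))]

noncomputable def kW (p : E3) : ℝ := P.R * Real.sin ((P.ρ - p 2) / P.R) / (P.A + P.m * p 0)

noncomputable def ΨW (p : E3) : E3 :=
  !₂[P.kW p * (P.A * p 0 + P.m), P.kW p * p 1, P.R * Real.cos ((P.ρ - p 2) / P.R)]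

open Classical in
noncomputable def Ψ (p : E3) : E3 :=
  if p 0 ^ 2 + p 1 ^ 2 = 1 then P.ΨW p else if 0 < p 2 then P.ΨT p else P.ΨB p

theorem rad_sq (p : E3) : P.rad p ^ 2 = (P.A * p 0 + P.m) ^ 2 + p 1 ^ 2 :=
  Real.sq_sqrt (by positivity)

theorem rad_nonneg (p : E3) : 0 ≤ P.rad p := Real.sqrt_nonneg _

theorem rad_id (p : E3) :
    (P.A + P.m * p 0) ^ 2 - P.rad p ^ 2 = 1 - (p 0 ^ 2 + p 1 ^ 2) := by
  rw [P.rad_sq]
  linear_combination (1 - p 0 ^ 2) * P.hA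

theorem rad_le {p : E3} (hp : p 0 ^ 2 + p 1 ^ 2 ≤ 1) : P.rad p ≤ P.A + P.m * p 0 := by
  have h1 := P.tau_pos hp
  have h2 := P.hmA
  refine abs_le_of_sq_le_sq' ?_ (by linarith) |>.2
  have := P.rad_id p
  linarith

theorem rad_eq {p : E3} (hp : p 0 ^ 2 + p 1 ^ 2 = 1) : P.rad p = P.A + P.m * p 0 := by
  have h1 := P.tau_pos hp.le
  have h2 := P.hmA
  refine (pow_left_inj₀ (P.rad_nonneg p) (by linarith) two_ne_zero).1 ?_
  have := P.rad_id p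
  linarith

theorem kT_mul_rad (p : E3) : P.kT p * P.rad p = P.R * Real.sin (P.rad p / P.R) := by
  unfold kT
  rcases eq_or_ne (P.rad p) 0 with h | h
  · rw [h]; simp
  · field_simp

theorem ΨW_eq_ΨT {p : E3} (h1 : p 0 ^ 2 + p 1 ^ 2 = 1) (h2 : p 2 = P.H - P.m * p 0) :
    P.ΨW p = P.ΨT p := by
  have h3 : P.ρ - p 2 = P.A + P.m * p 0 := by rw [h2]; unfold ρ; ring
  unfold ΨW ΨT kW kT
  rw [P.rad_eq h1, h3]

theorem ΨW_eq_ΨB {p : E3} (h1 : p 0 ^ 2 + p 1 ^ 2 = 1) (h2 : p 2 = -(P.H - P.m * p 0)) :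
    P.ΨW p = P.ΨB p := by
  have h3 : P.ρ - p 2 = 2 * P.ρ - (P.A + P.m * p 0) := by rw [h2]; unfold ρ; ring
  have h4 : (P.ρ - p 2) / P.R = Real.pi - (P.A + P.m * p 0) / P.R := by
    rw [h3, P.two_rho]
    have := P.R_pos
    field_simp
  unfold ΨW ΨB kW kT
  rw [P.rad_eq h1, h4, Real.sin_pi_sub, Real.cos_pi_sub]
  simp

theorem Ψ_T {p : E3} (hp : p ∈ P.T) : P.Ψ p = P.ΨT p := by
  unfold Ψ
  split_ifs with h1 h2
  · exact P.ΨW_eq_ΨT h1 hp.2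
  · rfl
  · exact absurd (by rw [hp.2]; exact P.height_pos hp.1) h2

theorem Ψ_B {p : E3} (hp : p ∈ P.B) : P.Ψ p = P.ΨB p := by
  unfold Ψ
  split_ifs with h1 h2
  · exact P.ΨW_eq_ΨB h1 hp.2
  · rw [hp.2] at h2
    have := P.height_pos hp.1
    linarith
  · rfl

theorem Ψ_W {p : E3} (hp : p ∈ P.W) : P.Ψ p = P.ΨW p := by
  unfold Ψ
  rw [if_pos hp.1]

theorem norm_sq_eq (x : E3) : ‖x‖ ^ 2 = x 0 ^ 2 + x 1 ^ 2 + x 2 ^ 2 := by
  rw [EuclideanSpace.norm_eq, Real.sq_sqrt (by positivity), Fin.sum_univ_three]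
  simp

theorem norm_ΨT (p : E3) : ‖P.ΨT p‖ = P.R := by
  refine (pow_left_inj₀ (norm_nonneg _) P.R_pos.le two_ne_zero).1 ?_
  rw [norm_sq_eq]
  simp only [ΨT]
  simp
  have h1 := P.kT_mul_rad p
  have h2 := P.rad_sq p
  have h3 : (P.kT p * P.rad p) ^ 2 = (P.R * Real.sin (P.rad p / P.R)) ^ 2 := by rw [h1]
  have h4 := Real.sin_sq_add_cos_sq (P.rad p / P.R)
  calc _ = P.kT p ^ 2 * ((P.A * p 0 + P.m) ^ 2 + p 1 ^ 2) + (P.R * Real.cos (P.rad p / P.R)) ^ 2 := by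
        ring
    _ = (P.kT p * P.rad p) ^ 2 + (P.R * Real.cos (P.rad p / P.R)) ^ 2 := by rw [← h2]; ring
    _ = P.R ^ 2 * (Real.sin (P.rad p / P.R) ^ 2 + Real.cos (P.rad p / P.R) ^ 2) := by rw [h3]; ring
    _ = _ := by rw [h4]; ring

theorem norm_ΨB (p : E3) : ‖P.ΨB p‖ = P.R := by
  rw [← P.norm_ΨT p]
  refine (pow_left_inj₀ (norm_nonneg _) (norm_nonneg _) two_ne_zero).1 ?_
  rw [norm_sq_eq, norm_sq_eq]
  simp [ΨT, ΨB]

theorem ab_sq {p : E3} (hp : p 0 ^ 2 + p 1 ^ 2 = 1) :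
    (P.A * p 0 + P.m) ^ 2 + p 1 ^ 2 = (P.A + P.m * p 0) ^ 2 := by
  rw [← P.rad_eq hp, P.rad_sq]

theorem norm_ΨW {p : E3} (hp : p 0 ^ 2 + p 1 ^ 2 = 1) : ‖P.ΨW p‖ = P.R := by
  refine (pow_left_inj₀ (norm_nonneg _) P.R_pos.le two_ne_zero).1 ?_
  rw [norm_sq_eq]
  simp only [ΨW]
  simp
  have h0 := P.tau_pos hp.le
  have h0' := P.hmA
  have h1 : P.kW p * (P.A + P.m * p 0) = P.R * Real.sin ((P.ρ - p 2) / P.R) := by
    unfold kW
    rw [div_mul_cancel₀]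
    linarith
  have h2 := P.ab_sq hp
  have h3 : (P.kW p * (P.A + P.m * p 0)) ^ 2 = (P.R * Real.sin ((P.ρ - p 2) / P.R)) ^ 2 := by rw [h1]
  have h4 := Real.sin_sq_add_cos_sq ((P.ρ - p 2) / P.R)
  calc _ = P.kW p ^ 2 * ((P.A * p 0 + P.m) ^ 2 + p 1 ^ 2)
          + (P.R * Real.cos ((P.ρ - p 2) / P.R)) ^ 2 := by
        ring
    _ = (P.kW p * (P.A + P.m * p 0)) ^ 2 + (P.R * Real.cos ((P.ρ - p 2) / P.R)) ^ 2 := by
        rw [h2]; ring
    _ = P.R ^ 2 * (Real.sin ((P.ρ - p 2) / P.R) ^ 2 + Real.cos ((P.ρ - p 2) / P.R) ^ 2) := by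
        rw [h3]; ring
    _ = _ := by rw [h4]; ring

theorem norm_Ψ {p : E3} (hp : p ∈ P.S) : ‖P.Ψ p‖ = P.R := by
  rcases P.mem_S.1 hp with h | h | h
  · rw [P.Ψ_T h, P.norm_ΨT]
  · rw [P.Ψ_W h, P.norm_ΨW h.1]
  · rw [P.Ψ_B h, P.norm_ΨB]

/-- `2 (1 - cos t) ≤ t ^ 2` -/
theorem two_sub_cos_le (t : ℝ) : 2 * (1 - Real.cos t) ≤ t ^ 2 := by
  have := Real.one_sub_sq_div_two_le_cos (x := t)
  linarith

theorem kT_nonneg {p : E3} (hp : P.rad p ≤ Real.pi * P.R) : 0 ≤ P.kT p := by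
  unfold kT
  have hR := P.R_pos
  have h0 := P.rad_nonneg p
  have : 0 ≤ Real.sin (P.rad p / P.R) := by
    apply Real.sin_nonneg_of_nonneg_of_le_pi (by positivity)
    rwa [div_le_iff₀ hR]
  positivity

theorem kT_le_one (p : E3) : P.kT p ≤ 1 := by
  unfold kT
  have hR := P.R_pos
  rcases eq_or_lt_of_le (P.rad_nonneg p) with h | h
  · rw [← h]; simp
  · rw [div_le_one h]
    have h1 : Real.sin (P.rad p / P.R) ≤ P.rad p / P.R := Real.sin_le (by positivity)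
    calc P.R * Real.sin (P.rad p / P.R) ≤ P.R * (P.rad p / P.R) := by gcongr
      _ = P.rad p := by field_simp

theorem rad_le_pi {p : E3} (hp : p 0 ^ 2 + p 1 ^ 2 ≤ 1) : P.rad p ≤ Real.pi * P.R := by
  have h1 := P.rad_le hp
  rw [← P.two_rho]
  have h2 : p 0 ≤ 1 := by nlinarith [sq_nonneg (p 1), sq_nonneg (p 0 - 1)]
  unfold ρ
  nlinarith [P.hm, P.hmH, P.hmA]

/-- inner product bound -/
theorem ip_le (p q : E3) :
    (P.A * p 0 + P.m) * (P.A * q 0 + P.m) + p 1 * q 1 ≤ P.rad p * P.rad q := by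
  have h1 := P.rad_sq p
  have h2 := P.rad_sq q
  have h3 := P.rad_nonneg p
  have h4 := P.rad_nonneg q
  refine abs_le_of_sq_le_sq' ?_ (by positivity) |>.2
  rw [mul_pow, h1, h2]
  nlinarith [sq_nonneg ((P.A * p 0 + P.m) * q 1 - (P.A * q 0 + P.m) * p 1)]

theorem core {R x y k k' τ τ' a b a' b' D : ℝ} (s1 : τ ^ 2 = a ^ 2 + b ^ 2)
    (s2 : τ' ^ 2 = a' ^ 2 + b' ^ 2) (ek : k * τ = R * Real.sin x) (ek' : k' * τ' = R * Real.sin y)
    (kk : k * k' ≤ 1) (hi : a * a' + b * b' ≤ τ * τ') (hD : R ^ 2 * (x - y) ^ 2 = D) :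
    (k * a - k' * a') ^ 2 + (k * b - k' * b') ^ 2 + (R * Real.cos x - R * Real.cos y) ^ 2
      ≤ D + 2 * (τ * τ' - (a * a' + b * b')) := by
  have c1 := two_sub_cos_le (x - y)
  rw [Real.cos_sub] at c1
  have t1 := Real.sin_sq_add_cos_sq x
  have t2 := Real.sin_sq_add_cos_sq y
  have c2 : 2 * R ^ 2 - 2 * (R * Real.cos x) * (R * Real.cos y)
      - 2 * (k * τ) * (k' * τ') ≤ D := by
    rw [ek, ek', ← hD]
    have := mul_le_mul_of_nonneg_left c1 (sq_nonneg R)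
    linarith
  have c3 : (k * τ) ^ 2 + (R * Real.cos x) ^ 2 = R ^ 2 := by
    rw [ek]; linear_combination R ^ 2 * t1
  have c4 : (k' * τ') ^ 2 + (R * Real.cos y) ^ 2 = R ^ 2 := by
    rw [ek']; linear_combination R ^ 2 * t2
  have c5 : k * k' * (τ * τ' - (a * a' + b * b')) ≤ 1 * (τ * τ' - (a * a' + b * b')) := by
    apply mul_le_mul_of_nonneg_right kk
    linarith
  have s1' : k ^ 2 * τ ^ 2 = k ^ 2 * (a ^ 2 + b ^ 2) := by rw [s1]
  have s2' : k' ^ 2 * τ' ^ 2 = k' ^ 2 * (a' ^ 2 + b' ^ 2) := by rw [s2]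
  clear ek ek' c1 t1 t2 hD s1 s2 hi kk
  generalize R * Real.cos x = C at *
  generalize R * Real.cos y = C' at *
  linarith

theorem dist_T {p q : E3} (hp : p 0 ^ 2 + p 1 ^ 2 ≤ 1) (hq : q 0 ^ 2 + q 1 ^ 2 ≤ 1) :
    ‖P.ΨT p - P.ΨT q‖ ^ 2 ≤ (P.A * p 0 - P.A * q 0) ^ 2 + (p 1 - q 1) ^ 2 := by
  have hR := P.R_pos
  have k0 : 0 ≤ P.kT p := P.kT_nonneg (P.rad_le_pi hp)
  have k1 : P.kT p ≤ 1 := P.kT_le_one p
  have k0' : 0 ≤ P.kT q := P.kT_nonneg (P.rad_le_pi hq)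
  have k1' : P.kT q ≤ 1 := P.kT_le_one q
  have kk : P.kT p * P.kT q ≤ 1 := by nlinarith
  have h := core (P.rad_sq p) (P.rad_sq q) (P.kT_mul_rad p) (P.kT_mul_rad q) kk (P.ip_le p q)
    (D := (P.rad p - P.rad q) ^ 2) (by field_simp)
  have s1 := P.rad_sq p
  have s2 := P.rad_sq q
  rw [norm_sq_eq]
  simp only [ΨT]
  simp only [PiLp.sub_apply, Matrix.cons_val_zero, Matrix.cons_val_one,
    Matrix.cons_val]
  refine h.trans (le_of_eq ?_)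
  linear_combination s1 + s2

/-- the key identity on the cylinder -/
theorem key_id (p q : E3) :
    (P.A + P.m * p 0) * (P.A + P.m * q 0)
      - ((P.A * p 0 + P.m) * (P.A * q 0 + P.m) + p 1 * q 1) = 1 - (p 0 * q 0 + p 1 * q 1) := by
  linear_combination (1 - p 0 * q 0) * P.hA

theorem kW_mul {p : E3} (hp : p 0 ^ 2 + p 1 ^ 2 ≤ 1) :
    P.kW p * (P.A + P.m * p 0) = P.R * Real.sin ((P.ρ - p 2) / P.R) := by
  have hτp := P.tau_pos hp
  have hmA := P.hmA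
  unfold kW
  rw [div_mul_cancel₀]
  linarith

theorem kW_bounds {p : E3} (hp : p ∈ P.W) : 0 ≤ P.kW p ∧ P.kW p ≤ 1 := by
  have hτp := P.tau_pos hp.1.le
  have hmA := P.hmA
  have hRle := P.R_le
  have hR := P.R_pos
  have zp := abs_le.1 hp.2
  have hhp := P.height_pos hp.1.le
  have lp : 0 ≤ Real.sin ((P.ρ - p 2) / P.R) := by
    apply Real.sin_nonneg_of_nonneg_of_le_pi
    · apply div_nonneg _ hR.le
      unfold ρ; linarith [zp.2]
    · rw [div_le_iff₀ hR, ← P.two_rho]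
      unfold ρ; linarith [zp.1]
  have τ0 : 0 < P.A + P.m * p 0 := by linarith
  constructor
  · unfold kW
    positivity
  · unfold kW
    rw [div_le_one τ0]
    have h2 : P.R * Real.sin ((P.ρ - p 2) / P.R) ≤ P.R * 1 := by
      gcongr; exact Real.sin_le_one _
    linarith

theorem dist_W {p q : E3} (hp : p ∈ P.W) (hq : q ∈ P.W) :
    ‖P.ΨW p - P.ΨW q‖ ^ 2 ≤ ‖p - q‖ ^ 2 := by
  have hp1 := hp.1
  have hq1 := hq.1
  have hR := P.R_pos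
  have ap := P.ab_sq hp1
  have aq := P.ab_sq hq1
  have hkey := P.key_id p q
  obtain ⟨k0, k1⟩ := P.kW_bounds hp
  obtain ⟨k0', k1'⟩ := P.kW_bounds hq
  have kk : P.kW p * P.kW q ≤ 1 := by nlinarith
  have hnn : 0 ≤ 1 - (p 0 * q 0 + p 1 * q 1) := by
    nlinarith [sq_nonneg (p 0 - q 0), sq_nonneg (p 1 - q 1)]
  have h := core ap.symm aq.symm (P.kW_mul hp1.le) (P.kW_mul hq1.le) kk (by linarith)
    (D := (p 2 - q 2) ^ 2) (by field_simp; ring)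
  rw [norm_sq_eq, norm_sq_eq]
  simp only [ΨW]
  simp only [PiLp.sub_apply, Matrix.cons_val_zero, Matrix.cons_val_one,
    Matrix.cons_val]
  refine h.trans (le_of_eq ?_)
  rw [hkey]
  linear_combination -hp1 - hq1

theorem le_of_T {p q : E3} (hp : p ∈ P.T) (hq : q ∈ P.T) :
    ‖P.Ψ p - P.Ψ q‖ ≤ ‖p - q‖ := by
  rw [P.Ψ_T hp, P.Ψ_T hq]
  refine (pow_le_pow_iff_left₀ (norm_nonneg _) (norm_nonneg _) two_ne_zero).1 ?_
  refine (P.dist_T hp.1 hq.1).trans (le_of_eq ?_)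
  rw [norm_sq_eq]
  simp only [PiLp.sub_apply]
  rw [hp.2, hq.2]
  linear_combination (p 0 - q 0) ^ 2 * P.hA

theorem le_of_B {p q : E3} (hp : p ∈ P.B) (hq : q ∈ P.B) :
    ‖P.Ψ p - P.Ψ q‖ ≤ ‖p - q‖ := by
  rw [P.Ψ_B hp, P.Ψ_B hq]
  refine (pow_le_pow_iff_left₀ (norm_nonneg _) (norm_nonneg _) two_ne_zero).1 ?_
  have h : ‖P.ΨB p - P.ΨB q‖ ^ 2 = ‖P.ΨT p - P.ΨT q‖ ^ 2 := by
    rw [norm_sq_eq, norm_sq_eq]
    simp only [ΨT, ΨB, PiLp.sub_apply, Matrix.cons_val_zero, Matrix.cons_val_one,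
      Matrix.cons_val]
    ring
  rw [h]
  refine (P.dist_T hp.1 hq.1).trans (le_of_eq ?_)
  rw [norm_sq_eq]
  simp only [PiLp.sub_apply]
  rw [hp.2, hq.2]
  linear_combination (p 0 - q 0) ^ 2 * P.hA

theorem le_of_W {p q : E3} (hp : p ∈ P.W) (hq : q ∈ P.W) :
    ‖P.Ψ p - P.Ψ q‖ ≤ ‖p - q‖ := by
  rw [P.Ψ_W hp, P.Ψ_W hq]
  exact (pow_le_pow_iff_left₀ (norm_nonneg _) (norm_nonneg _) two_ne_zero).1 (P.dist_W hp hq)

theorem eventually_piece {Q : Set E3} (hQ : IsClosed Q)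
    (h : ∀ p ∈ Q, ∀ q ∈ Q, ‖P.Ψ p - P.Ψ q‖ ≤ ‖p - q‖) (x : E3) :
    ∀ᶠ y in 𝓝 x, y ∈ Q → ‖P.Ψ x - P.Ψ y‖ ≤ ‖x - y‖ := by
  by_cases hx : x ∈ Q
  · exact Eventually.of_forall fun y hy => h x hx y hy
  · filter_upwards [hQ.isOpen_compl.mem_nhds hx] with y hy hy'
    exact absurd hy' hy

theorem Ψ_local (x : E3) : ∀ᶠ y in 𝓝[P.S] x, ‖P.Ψ x - P.Ψ y‖ ≤ ‖x - y‖ := by
  rw [eventually_nhdsWithin_iff]
  filter_upwards [P.eventually_piece P.isClosed_T (fun p hp q hq => P.le_of_T hp hq) x,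
    P.eventually_piece P.isClosed_W (fun p hp q hq => P.le_of_W hp hq) x,
    P.eventually_piece P.isClosed_B (fun p hp q hq => P.le_of_B hp hq) x] with y h1 h2 h3 hy
  rcases P.mem_S.1 hy with h | h | h
  · exact h1 h
  · exact h2 h
  · exact h3 h

/-- lower bound -/
theorem lower {p q : E3} (hpq : P.Ψ q = -P.Ψ p) :
    ENNReal.ofReal (2 * P.ρ) ≤ intrinsicDist P.S p q := by
  rw [P.two_rho]
  exact le_intrinsicDist P.R_pos (fun x hx => P.norm_Ψ hx) (fun x _ => P.Ψ_local x) hpq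

end Par
end Pool.Agent.MP_324c12_gt
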