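import Mathlib
import Pool.Agent.MP_324c12_gt.Part4

set_option autoImplicit false

open Set Filter Topology InnerProductGeometry
open scoped ENNReal NNReal RealInnerProductSpace

namespace Pool.Agent.MP_324c12_gt
namespace Par
variable (P : Par)

/-! ### Meridians -/

noncomputable def τ (c : ℝ) : ℝ := 1 / (P.A - P.m * c)

noncomputable def XT (r c s : ℝ) : E3 :=
  !₂[(r * c - P.m) / P.A, r * s, P.H - P.m * ((r * c - P.m) / P.A)]

noncomputable def XW (r c s : ℝ) : E3 :=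
  !₂[(P.τ c * c - P.m) / P.A, P.τ c * s, P.ρ - r]

noncomputable def XB (r c s : ℝ) : E3 :=
  !₂[((2 * P.ρ - r) * c - P.m) / P.A, (2 * P.ρ - r) * s,
    -(P.H - P.m * (((2 * P.ρ - r) * c - P.m) / P.A))]

/-- The point at distance `r` from the upper pole on the meridian with direction `(c, s)`. -/
noncomputable def X (r c s : ℝ) : E3 :=
  if r ≤ P.τ c then P.XT r c s else if r ≤ 2 * P.ρ - P.τ c then P.XW r c s else P.XB r c s

variable {c s : ℝ}

theorem c_le (h : c ^ 2 + s ^ 2 = 1) : c ≤ 1 ∧ -1 ≤ c := by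
  constructor <;> nlinarith [sq_nonneg s, sq_nonneg (c - 1), sq_nonneg (c + 1)]

theorem den_pos (h : c ^ 2 + s ^ 2 = 1) : 0 < P.A - P.m * c := by
  have h1 := c_le h
  nlinarith [P.hm, P.hmA]

theorem τ_pos (h : c ^ 2 + s ^ 2 = 1) : 0 < P.τ c := by
  have := P.den_pos h
  unfold τ; positivity

theorem τ_mul (h : c ^ 2 + s ^ 2 = 1) : P.τ c * (P.A - P.m * c) = 1 := by
  have := P.den_pos h
  unfold τ; field_simp

theorem τ_lt (h : c ^ 2 + s ^ 2 = 1) : P.τ c < P.ρ := by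
  have h1 := P.den_pos h
  have h2 := c_le h
  have h3 := P.hmA1
  have h4 := P.hmA
  have h5 : P.τ c ≤ P.A + P.m := by
    unfold τ
    rw [div_le_iff₀ h1]
    nlinarith [P.hm]
  have := P.hmH
  unfold ρ; linarith

theorem τ_eq (h : c ^ 2 + s ^ 2 = 1) :
    P.A + P.m * ((P.τ c * c - P.m) / P.A) = P.τ c := by
  have h1 := P.τ_mul h
  have h2 := P.hA0
  field_simp
  linear_combination P.hA - h1

theorem XT_tau (h : c ^ 2 + s ^ 2 = 1) : P.XT (P.τ c) c s = P.XW (P.τ c) c s := by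
  have h1 := P.τ_eq h
  unfold XT XW
  congr 3
  congr 1
  unfold ρ
  linarith

theorem XB_tau (h : c ^ 2 + s ^ 2 = 1) :
    P.XW (2 * P.ρ - P.τ c) c s = P.XB (2 * P.ρ - P.τ c) c s := by
  have h1 := P.τ_eq h
  unfold XB XW
  have h2 : 2 * P.ρ - (2 * P.ρ - P.τ c) = P.τ c := by ring
  rw [h2]
  congr 3
  congr 1
  unfold ρ
  linarith

/-- points of the upper face -/
theorem XT_mem (h : c ^ 2 + s ^ 2 = 1) {r : ℝ} (hr0 : 0 ≤ r) (hr : r ≤ P.τ c) :
    P.XT r c s ∈ P.T := by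
  have h1 := P.den_pos h
  have h2 := P.hA0
  have h3 : r * (P.A - P.m * c) ≤ 1 := by
    rw [← P.τ_mul h]; gcongr
  refine ⟨?_, ?_⟩
  · simp only [XT, Matrix.cons_val_zero, Matrix.cons_val_one]
    rw [div_pow, div_add' _ _ _ (by positivity), div_le_one (by positivity)]
    have h5 : r * P.A ≤ 1 + P.m * r * c := by linarith
    have h6 : (r * P.A) ^ 2 ≤ (1 + P.m * r * c) ^ 2 := by
      apply pow_le_pow_left₀ (by positivity) h5
    have h7 : P.A ^ 2 * (r * s) ^ 2 = P.A ^ 2 * r ^ 2 * (1 - c ^ 2) := by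
      rw [← h]; ring
    have h8 := P.hA
    nlinarith
  · simp only [XT, Matrix.cons_val_zero, Matrix.cons_val]

theorem XW_mem (h : c ^ 2 + s ^ 2 = 1) {r : ℝ} (hr0 : P.τ c ≤ r) (hr : r ≤ 2 * P.ρ - P.τ c) :
    P.XW r c s ∈ P.W := by
  have h1 := P.τ_eq h
  have h2 := P.hA0
  have h3 := P.τ_mul h
  have h4 := P.hA
  refine ⟨?_, ?_⟩
  · simp only [XW, Matrix.cons_val_zero, Matrix.cons_val_one]
    rw [div_pow, div_add' _ _ _ (by positivity), div_eq_one_iff_eq (by positivity)]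
    have h8 : (P.τ c * P.A) = 1 + P.τ c * P.m * c := by linarith
    linear_combination (P.τ c ^ 2 * P.A ^ 2) * h + (P.τ c * P.A + 1 + P.τ c * P.m * c) * h8
      - P.τ c ^ 2 * c ^ 2 * h4 - h4
  · simp only [XW, Matrix.cons_val_zero, Matrix.cons_val]
    rw [abs_le]
    have h5 : P.H - P.m * ((P.τ c * c - P.m) / P.A) = P.ρ - P.τ c := by unfold ρ; linarith
    rw [h5]
    constructor <;> linarith

theorem XB_mem (h : c ^ 2 + s ^ 2 = 1) {r : ℝ} (hr0 : 2 * P.ρ - P.τ c ≤ r) (hr : r ≤ 2 * P.ρ) :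
    P.XB r c s ∈ P.B := by
  have h1 := P.XT_mem h (r := 2 * P.ρ - r) (by linarith) (by linarith)
  exact ⟨h1.1, rfl⟩

theorem mem_S_T {p : E3} (h : p ∈ P.T) : p ∈ P.S := P.mem_S.2 (Or.inl h)
theorem mem_S_W {p : E3} (h : p ∈ P.W) : p ∈ P.S := P.mem_S.2 (Or.inr (Or.inl h))
theorem mem_S_B {p : E3} (h : p ∈ P.B) : p ∈ P.S := P.mem_S.2 (Or.inr (Or.inr h))

/-- a straight unit speed path in `S` -/
theorem straight {f : ℝ → E3} {a b : ℝ} (hf : ∀ x y t : ℝ, f x + t • (f y - f x) = f (x + t * (y - x)))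
    (hd : ∀ x y, dist (f x) (f y) = |x - y|) (hS : ∀ r ∈ Icc a b, f r ∈ P.S)
    {x y : ℝ} (hx : x ∈ Icc a b) (hy : y ∈ Icc a b) :
    intrinsicDist P.S (f x) (f y) ≤ ENNReal.ofReal |x - y| := by
  rw [← hd, ← edist_dist]
  apply intrinsicDist_le_of_segment
  rw [segment_eq_image']
  rintro _ ⟨t, ht, rfl⟩
  simp only
  rw [hf]
  apply hS
  have hc : Convex ℝ (Icc a b) := convex_Icc a b
  have := hc.add_smul_sub_mem hx hy ht
  simpa using this

theorem XT_seg (x y t : ℝ) : P.XT x c s + t • (P.XT y c s - P.XT x c s)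
    = P.XT (x + t * (y - x)) c s := by
  have := P.hA0
  ext i
  fin_cases i <;> simp [XT] <;> field_simp <;> ring

theorem XW_seg (x y t : ℝ) : P.XW x c s + t • (P.XW y c s - P.XW x c s)
    = P.XW (x + t * (y - x)) c s := by
  ext i
  fin_cases i <;> simp [XW] <;> ring

theorem XB_seg (x y t : ℝ) : P.XB x c s + t • (P.XB y c s - P.XB x c s)
    = P.XB (x + t * (y - x)) c s := by
  have := P.hA0
  ext i
  fin_cases i <;> simp [XB] <;> field_simp <;> ring

theorem dist_eq_of_sq {p q : E3} {d : ℝ}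
    (h : (p 0 - q 0) ^ 2 + (p 1 - q 1) ^ 2 + (p 2 - q 2) ^ 2 = d ^ 2) : dist p q = |d| := by
  rw [dist_eq_norm]
  refine (pow_left_inj₀ (norm_nonneg _) (abs_nonneg _) two_ne_zero).1 ?_
  rw [norm_sq_eq, sq_abs, ← h]
  simp

theorem XT_dist (h : c ^ 2 + s ^ 2 = 1) (x y : ℝ) : dist (P.XT x c s) (P.XT y c s) = |x - y| := by
  apply dist_eq_of_sq
  have h0 := P.hA0
  simp only [XT, Matrix.cons_val_zero, Matrix.cons_val_one, Matrix.cons_val]
  have e1 : (x * c - P.m) / P.A - (y * c - P.m) / P.A = (x - y) * c / P.A := by ring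
  have e2 : P.H - P.m * ((x * c - P.m) / P.A) - (P.H - P.m * ((y * c - P.m) / P.A))
      = - P.m * ((x - y) * c / P.A) := by ring
  rw [e1, e2]
  field_simp
  linear_combination (x - y) ^ 2 * P.A ^ 2 * h - (x - y) ^ 2 * c ^ 2 * P.hA

theorem XW_dist (x y : ℝ) : dist (P.XW x c s) (P.XW y c s) = |x - y| := by
  apply dist_eq_of_sq
  simp only [XW, Matrix.cons_val_zero, Matrix.cons_val_one, Matrix.cons_val]
  ring

theorem XB_dist (h : c ^ 2 + s ^ 2 = 1) (x y : ℝ) : dist (P.XB x c s) (P.XB y c s) = |x - y| := by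
  apply dist_eq_of_sq
  have h0 := P.hA0
  simp only [XB, Matrix.cons_val_zero, Matrix.cons_val_one, Matrix.cons_val]
  have e1 : ((2 * P.ρ - x) * c - P.m) / P.A - ((2 * P.ρ - y) * c - P.m) / P.A
      = (y - x) * c / P.A := by ring
  have e2 : -(P.H - P.m * (((2 * P.ρ - x) * c - P.m) / P.A))
      - -(P.H - P.m * (((2 * P.ρ - y) * c - P.m) / P.A))
      = P.m * ((y - x) * c / P.A) := by ring
  rw [e1, e2]
  field_simp
  linear_combination (x - y) ^ 2 * P.A ^ 2 * h - (x - y) ^ 2 * c ^ 2 * P.hA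

theorem X_eq_T {r : ℝ} (h : r ≤ P.τ c) : P.X r c s = P.XT r c s := by
  unfold X; rw [if_pos h]

theorem X_eq_W (hcs : c ^ 2 + s ^ 2 = 1) {r : ℝ} (h0 : P.τ c ≤ r) (h : r ≤ 2 * P.ρ - P.τ c) :
    P.X r c s = P.XW r c s := by
  unfold X
  split_ifs with h1
  · have : r = P.τ c := le_antisymm h1 h0
    subst this
    exact P.XT_tau hcs
  · rfl

theorem X_eq_B (hcs : c ^ 2 + s ^ 2 = 1) {r : ℝ} (h0 : 2 * P.ρ - P.τ c ≤ r) :
    P.X r c s = P.XB r c s := by
  have h2 := P.τ_lt hcs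
  unfold X
  split_ifs with h1 h3
  · linarith
  · have : r = 2 * P.ρ - P.τ c := le_antisymm h3 h0
    subst this
    exact P.XB_tau hcs
  · rfl

theorem X_mem (h : c ^ 2 + s ^ 2 = 1) {r : ℝ} (hr : r ∈ Icc 0 (2 * P.ρ)) : P.X r c s ∈ P.S := by
  unfold X
  split_ifs with h1 h2
  · exact P.mem_S_T (P.XT_mem h hr.1 h1)
  · exact P.mem_S_W (P.XW_mem h (not_le.1 h1).le h2)
  · exact P.mem_S_B (P.XB_mem h (not_le.1 h2).le hr.2)

/-- gluing upper bounds along a path -/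
theorem glue {f : ℝ → E3} {a b c : ℝ} (hab : a ≤ b) (hbc : b ≤ c)
    (h1 : ∀ x ∈ Icc a b, ∀ y ∈ Icc a b, intrinsicDist P.S (f x) (f y) ≤ ENNReal.ofReal |x - y|)
    (h2 : ∀ x ∈ Icc b c, ∀ y ∈ Icc b c, intrinsicDist P.S (f x) (f y) ≤ ENNReal.ofReal |x - y|) :
    ∀ x ∈ Icc a c, ∀ y ∈ Icc a c, intrinsicDist P.S (f x) (f y) ≤ ENNReal.ofReal |x - y| := by
  have key : ∀ x ∈ Icc a c, ∀ y ∈ Icc a c, x ≤ y →
      intrinsicDist P.S (f x) (f y) ≤ ENNReal.ofReal |x - y| := by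
    intro x hx y hy hxy
    rcases le_total y b with hyb | hyb
    · exact h1 x ⟨hx.1, hxy.trans hyb⟩ y ⟨hy.1, hyb⟩
    · rcases le_total b x with hbx | hbx
      · exact h2 x ⟨hbx, hx.2⟩ y ⟨hyb, hy.2⟩
      · refine (intrinsicDist_triangle P.S _ (f b) _).trans ?_
        refine (add_le_add (h1 x ⟨hx.1, hbx⟩ b ⟨hab, le_rfl⟩)
          (h2 b ⟨le_rfl, hbc⟩ y ⟨hyb, hy.2⟩)).trans ?_
        rw [← ENNReal.ofReal_add (abs_nonneg _) (abs_nonneg _)]
        apply ENNReal.ofReal_le_ofReal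
        rw [abs_of_nonpos (by linarith), abs_of_nonpos (by linarith), abs_of_nonpos (by linarith)]
        linarith
  intro x hx y hy
  rcases le_total x y with h | h
  · exact key x hx y hy h
  · rw [intrinsicDist_comm, abs_sub_comm]
    exact key y hy x hx h

theorem meridian (h : c ^ 2 + s ^ 2 = 1) : ∀ x ∈ Icc 0 (2 * P.ρ), ∀ y ∈ Icc 0 (2 * P.ρ),
    intrinsicDist P.S (P.X x c s) (P.X y c s) ≤ ENNReal.ofReal |x - y| := by
  have h0 := P.τ_pos h
  have h1 := P.τ_lt h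
  refine P.glue (f := fun r => P.X r c s) (b := P.τ c) h0.le (by linarith) ?_ ?_
  · intro x hx y hy
    rw [P.X_eq_T hx.2, P.X_eq_T hy.2]
    exact P.straight (f := fun r => P.XT r c s) P.XT_seg (P.XT_dist h)
      (fun r hr => P.mem_S_T (P.XT_mem h hr.1 hr.2)) hx hy
  · refine P.glue (f := fun r => P.X r c s) (b := 2 * P.ρ - P.τ c) (by linarith) (by linarith) ?_ ?_
    · intro x hx y hy
      rw [P.X_eq_W h hx.1 hx.2, P.X_eq_W h hy.1 hy.2]
      exact P.straight (f := fun r => P.XW r c s) P.XW_seg P.XW_dist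
        (fun r hr => P.mem_S_W (P.XW_mem h hr.1 hr.2)) hx hy
    · intro x hx y hy
      rw [P.X_eq_B h hx.1, P.X_eq_B h hy.1]
      exact P.straight (f := fun r => P.XB r c s) P.XB_seg (P.XB_dist h)
        (fun r hr => P.mem_S_B (P.XB_mem h hr.1 hr.2)) hx hy


/-! ### Surjectivity of the parametrisation -/

theorem X_zero (h : c ^ 2 + s ^ 2 = 1) {c' s' : ℝ} (h' : c' ^ 2 + s' ^ 2 = 1) :
    P.X 0 c s = P.X 0 c' s' := by
  rw [P.X_eq_T (P.τ_pos h).le, P.X_eq_T (P.τ_pos h').le]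
  simp [XT]

theorem X_end (h : c ^ 2 + s ^ 2 = 1) {c' s' : ℝ} (h' : c' ^ 2 + s' ^ 2 = 1) :
    P.X (2 * P.ρ) c s = P.X (2 * P.ρ) c' s' := by
  rw [P.X_eq_B h (by linarith [P.τ_pos h]), P.X_eq_B h' (by linarith [P.τ_pos h'])]
  simp [XB]

theorem ext3 {p q : E3} (h0 : p 0 = q 0) (h1 : p 1 = q 1) (h2 : p 2 = q 2) : p = q := by
  ext i
  fin_cases i <;> assumption

/-- direction of a point -/
theorem exists_dir (p : E3) (hp : p 0 ^ 2 + p 1 ^ 2 ≤ 1) :
    ∃ c s : ℝ, c ^ 2 + s ^ 2 = 1 ∧ P.rad p * c = P.A * p 0 + P.m ∧ P.rad p * s = p 1 ∧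
      P.rad p ≤ P.τ c := by
  rcases eq_or_lt_of_le (P.rad_nonneg p) with h | h
  · have h1 := P.rad_sq p
    rw [← h] at h1
    have h2 : P.A * p 0 + P.m = 0 := by nlinarith [sq_nonneg (P.A * p 0 + P.m), sq_nonneg (p 1)]
    have h3 : p 1 = 0 := by nlinarith [sq_nonneg (P.A * p 0 + P.m), sq_nonneg (p 1)]
    refine ⟨1, 0, by norm_num, ?_, ?_, ?_⟩
    · rw [h2, ← h]; simp
    · rw [h3]; simp
    · rw [← h]
      exact (P.τ_pos (c := 1) (s := 0) (by norm_num)).le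
  · have hcs : ((P.A * p 0 + P.m) / P.rad p) ^ 2 + (p 1 / P.rad p) ^ 2 = 1 := by
      rw [div_pow, div_pow, ← add_div, ← P.rad_sq]
      field_simp
    refine ⟨(P.A * p 0 + P.m) / P.rad p, p 1 / P.rad p, hcs, by field_simp, by field_simp, ?_⟩
    have h1 := P.den_pos hcs
    unfold τ
    rw [le_div_iff₀ h1]
    have h2 := P.rad_le hp
    have h3 : P.rad p * (P.A - P.m * ((P.A * p 0 + P.m) / P.rad p))
        = P.A * P.rad p - P.m * (P.A * p 0 + P.m) := by field_simp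
    rw [h3]
    have h4 := P.hA
    have h5 : P.A * P.rad p ≤ P.A * (P.A + P.m * p 0) := by
      have := P.hA0; gcongr
    nlinarith

theorem exists_X {p : E3} (hp : p ∈ P.S) :
    ∃ r c s : ℝ, r ∈ Icc 0 (2 * P.ρ) ∧ c ^ 2 + s ^ 2 = 1 ∧ p = P.X r c s := by
  have hA0 := P.hA0
  rcases P.mem_S.1 hp with h | h | h
  · obtain ⟨c, s, hcs, h1, h2, h3⟩ := P.exists_dir p h.1
    refine ⟨P.rad p, c, s, ⟨P.rad_nonneg p, ?_⟩, hcs, ?_⟩
    · linarith [P.τ_lt hcs, P.ρ_pos]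
    · rw [P.X_eq_T h3]
      have e0 : (P.rad p * c - P.m) / P.A = p 0 := by rw [h1]; field_simp; ring
      apply ext3
      · simp only [XT, Matrix.cons_val_zero]; rw [e0]
      · simp only [XT, Matrix.cons_val_one, Matrix.cons_val_zero]; rw [h2]
      · simp only [XT, Matrix.cons_val]; rw [e0, h.2]
  · obtain ⟨c, s, hcs, h1, h2, h3⟩ := P.exists_dir p h.1.le
    have hrad := P.rad_eq h.1
    have hτ : P.τ c = P.rad p := by
      have h4 := P.τ_mul hcs
      have h5 : P.rad p * (P.A - P.m * c) = 1 := by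
        rw [mul_sub, show P.rad p * (P.m * c) = P.m * (P.rad p * c) by ring, h1, hrad]
        linear_combination P.hA
      have h6 := P.den_pos hcs
      have h7 : P.τ c * (P.A - P.m * c) = P.rad p * (P.A - P.m * c) := by rw [h4, h5]
      exact mul_right_cancel₀ h6.ne' h7
    have hz := abs_le.1 h.2
    have hh : P.H - P.m * p 0 = P.ρ - P.τ c := by rw [hτ, hrad]; unfold ρ; ring
    rw [hh] at hz
    have hlt := P.τ_lt hcs
    have hpos := P.τ_pos hcs
    refine ⟨P.ρ - p 2, c, s, ⟨by linarith [hz.2], by linarith [hz.1]⟩, hcs, ?_⟩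
    rw [P.X_eq_W hcs (by linarith [hz.2]) (by linarith [hz.1])]
    have e0 : (P.τ c * c - P.m) / P.A = p 0 := by rw [hτ, h1]; field_simp; ring
    apply ext3
    · simp only [XW, Matrix.cons_val_zero]; rw [e0]
    · simp only [XW, Matrix.cons_val_one, Matrix.cons_val_zero]; rw [hτ, h2]
    · simp only [XW, Matrix.cons_val]; ring
  · obtain ⟨c, s, hcs, h1, h2, h3⟩ := P.exists_dir p h.1
    have hlt := P.τ_lt hcs
    have hρ := P.ρ_pos
    have h0 := P.rad_nonneg p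
    refine ⟨2 * P.ρ - P.rad p, c, s, ⟨by linarith, by linarith⟩, hcs, ?_⟩
    rw [P.X_eq_B hcs (by linarith)]
    have e1 : 2 * P.ρ - (2 * P.ρ - P.rad p) = P.rad p := by ring
    have e0 : (P.rad p * c - P.m) / P.A = p 0 := by rw [h1]; field_simp; ring
    apply ext3
    · simp only [XB, Matrix.cons_val_zero]; rw [e1, e0]
    · simp only [XB, Matrix.cons_val_one, Matrix.cons_val_zero]; rw [e1, h2]
    · simp only [XB, Matrix.cons_val]; rw [e1, e0, h.2]

/-! ### The comparison map on meridians -/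

theorem rad_of {p : E3} {r : ℝ} (hcs : c ^ 2 + s ^ 2 = 1) (hr : 0 ≤ r)
    (h0 : P.A * p 0 + P.m = r * c) (h1 : p 1 = r * s) : P.rad p = r := by
  refine (pow_left_inj₀ (P.rad_nonneg p) hr two_ne_zero).1 ?_
  rw [P.rad_sq, h0, h1]
  linear_combination r ^ 2 * hcs

theorem Ψ_X (h : c ^ 2 + s ^ 2 = 1) {r : ℝ} (hr : r ∈ Icc 0 (2 * P.ρ)) :
    P.Ψ (P.X r c s) = !₂[P.R * Real.sin (r / P.R) * c, P.R * Real.sin (r / P.R) * s,
      P.R * Real.cos (r / P.R)] := by
  have hA0 := P.hA0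
  have hR := P.R_pos
  rcases le_total r (P.τ c) with h1 | h1
  · rw [P.X_eq_T h1, P.Ψ_T (P.XT_mem h hr.1 h1)]
    have e0 : P.A * (P.XT r c s) 0 + P.m = r * c := by
      simp only [XT, Matrix.cons_val_zero]; field_simp; ring
    have e1 : (P.XT r c s) 1 = r * s := by simp only [XT, Matrix.cons_val_one, Matrix.cons_val_zero]
    have hrad := P.rad_of h hr.1 e0 e1
    have hk := P.kT_mul_rad (P.XT r c s)
    rw [hrad] at hk
    unfold ΨT
    rw [e0, e1, hrad]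
    rw [← hk]
    congr 2
    · ring
    · congr 1; ring
  · rcases le_total r (2 * P.ρ - P.τ c) with h2 | h2
    · rw [P.X_eq_W h h1 h2, P.Ψ_W (P.XW_mem h h1 h2)]
      have e0 : P.A * (P.XW r c s) 0 + P.m = P.τ c * c := by
        simp only [XW, Matrix.cons_val_zero]; field_simp; ring
      have e1 : (P.XW r c s) 1 = P.τ c * s := by
        simp only [XW, Matrix.cons_val_one, Matrix.cons_val_zero]
      have e2 : P.ρ - (P.XW r c s) 2 = r := by simp only [XW, Matrix.cons_val]; ring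
      have hk := P.kW_mul (P.XW_mem h h1 h2).1.le
      have e3 : P.A + P.m * (P.XW r c s) 0 = P.τ c := by
        simp only [XW, Matrix.cons_val_zero]; exact P.τ_eq h
      rw [e2, e3] at hk
      unfold ΨW
      rw [e0, e1, e2, ← hk]
      congr 2
      · ring
      · congr 1; ring
    · rw [P.X_eq_B h h2, P.Ψ_B (P.XB_mem h h2 hr.2)]
      have e0 : P.A * (P.XB r c s) 0 + P.m = (2 * P.ρ - r) * c := by
        simp only [XB, Matrix.cons_val_zero]; field_simp; ring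
      have e1 : (P.XB r c s) 1 = (2 * P.ρ - r) * s := by
        simp only [XB, Matrix.cons_val_one, Matrix.cons_val_zero]
      have hrad := P.rad_of h (by linarith [hr.2]) e0 e1
      have hk := P.kT_mul_rad (P.XB r c s)
      have e4 : (2 * P.ρ - r) / P.R = Real.pi - r / P.R := by
        rw [P.two_rho]; field_simp
      rw [hrad, e4, Real.sin_pi_sub] at hk
      unfold ΨB
      rw [e0, e1, hrad, e4, Real.cos_pi_sub, ← hk]
      congr 2
      · ring
      · congr 1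
        · ring
        · congr 1; ring

theorem Ψ_antipode (h : c ^ 2 + s ^ 2 = 1) {r : ℝ} (hr : r ∈ Icc 0 (2 * P.ρ)) :
    P.Ψ (P.X (2 * P.ρ - r) (-c) (-s)) = - P.Ψ (P.X r c s) := by
  have hR := P.R_pos
  rw [P.Ψ_X h hr, P.Ψ_X (by simpa using h) ⟨by linarith [hr.2], by linarith [hr.1]⟩]
  have e4 : (2 * P.ρ - r) / P.R = Real.pi - r / P.R := by
    rw [P.two_rho]; field_simp
  rw [e4, Real.cos_pi_sub, Real.sin_pi_sub]
  apply ext3 <;> simp

end Par
end Pool.Agent.MP_324c12_gt
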