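import Mathlib
import Pool.Agent.MP_324c12_gt.Part5

set_option autoImplicit false

open Set Filter Topology InnerProductGeometry
open scoped ENNReal NNReal RealInnerProductSpace

namespace Pool.Agent.MP_324c12_gt

namespace Par
variable (P : Par)
variable {c s : ℝ}

theorem upper {c' s' r r' : ℝ} (h : c ^ 2 + s ^ 2 = 1) (h' : c' ^ 2 + s' ^ 2 = 1)
    (hr : r ∈ Icc 0 (2 * P.ρ)) (hr' : r' ∈ Icc 0 (2 * P.ρ)) :
    intrinsicDist P.S (P.X r c s) (P.X r' c' s') ≤ ENNReal.ofReal (r + r') ∧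
    intrinsicDist P.S (P.X r c s) (P.X r' c' s') ≤ ENNReal.ofReal (4 * P.ρ - r - r') := by
  have hρ := P.ρ_pos
  constructor
  · refine (intrinsicDist_triangle P.S _ (P.X 0 c s) _).trans ?_
    have h1 := P.meridian h r hr 0 ⟨le_rfl, by linarith⟩
    have h2 := P.meridian h' 0 ⟨le_rfl, by linarith⟩ r' hr'
    rw [P.X_zero h' h] at h2
    refine (add_le_add h1 h2).trans ?_
    rw [← ENNReal.ofReal_add (abs_nonneg _) (abs_nonneg _)]
    apply ENNReal.ofReal_le_ofReal
    rw [sub_zero, zero_sub, abs_neg, abs_of_nonneg hr.1, abs_of_nonneg hr'.1]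
  · refine (intrinsicDist_triangle P.S _ (P.X (2 * P.ρ) c s) _).trans ?_
    have h1 := P.meridian h r hr (2 * P.ρ) ⟨by linarith, le_rfl⟩
    have h2 := P.meridian h' (2 * P.ρ) ⟨by linarith, le_rfl⟩ r' hr'
    rw [P.X_end h' h] at h2
    refine (add_le_add h1 h2).trans ?_
    rw [← ENNReal.ofReal_add (abs_nonneg _) (abs_nonneg _)]
    apply ENNReal.ofReal_le_ofReal
    rw [abs_of_nonpos (by linarith [hr.2]), abs_of_nonneg (by linarith [hr'.2])]
    linarith

theorem upper_two_rho {c' s' r r' : ℝ} (h : c ^ 2 + s ^ 2 = 1) (h' : c' ^ 2 + s' ^ 2 = 1)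
    (hr : r ∈ Icc 0 (2 * P.ρ)) (hr' : r' ∈ Icc 0 (2 * P.ρ)) :
    intrinsicDist P.S (P.X r c s) (P.X r' c' s') ≤ ENNReal.ofReal (2 * P.ρ) := by
  obtain ⟨h1, h2⟩ := P.upper h h' hr hr'
  rcases le_total (r + r') (2 * P.ρ) with h3 | h3
  · exact h1.trans (ENNReal.ofReal_le_ofReal h3)
  · exact h2.trans (ENNReal.ofReal_le_ofReal (by linarith))

/-- the shortcut in the flat face near the pole -/
theorem shortcut {c' s' r r' : ℝ} (h : c ^ 2 + s ^ 2 = 1) (h' : c' ^ 2 + s' ^ 2 = 1)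
    (hr : r ∈ Icc 0 (2 * P.ρ)) (hr' : r' ∈ Icc 0 (2 * P.ρ)) (hr0 : 0 < r) (hr0' : 0 < r')
    (hne : c * c' + s * s' ≠ -1) :
    intrinsicDist P.S (P.X r c s) (P.X r' c' s') < ENNReal.ofReal (r + r') := by
  have hρ := P.ρ_pos
  have hτ := P.τ_pos h
  have hτ' := P.τ_pos h'
  have hlt := P.τ_lt h
  have hlt' := P.τ_lt h'
  have hA0 := P.hA0
  set δ := min (min r r') (min (P.τ c) (P.τ c')) with hδ
  have δ0 : 0 < δ := by
    simp only [hδ, lt_min_iff]; exact ⟨⟨hr0, hr0'⟩, hτ, hτ'⟩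
  have δ1 : δ ≤ r := (min_le_left _ _).trans (min_le_left _ _)
  have δ2 : δ ≤ r' := (min_le_left _ _).trans (min_le_right _ _)
  have δ3 : δ ≤ P.τ c := (min_le_right _ _).trans (min_le_left _ _)
  have δ4 : δ ≤ P.τ c' := (min_le_right _ _).trans (min_le_right _ _)
  have hδm : δ ∈ Icc 0 (2 * P.ρ) := ⟨δ0.le, by linarith⟩
  have h1 := P.meridian h r hr δ hδm
  have h2 := P.meridian h' δ hδm r' hr'
  have hxT : P.X δ c s ∈ P.T := by rw [P.X_eq_T δ3]; exact P.XT_mem h δ0.le δ3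
  have hyT : P.X δ c' s' ∈ P.T := by rw [P.X_eq_T δ4]; exact P.XT_mem h' δ0.le δ4
  have h3 : intrinsicDist P.S (P.X δ c s) (P.X δ c' s') ≤ edist (P.X δ c s) (P.X δ c' s') := by
    apply intrinsicDist_le_of_segment
    exact (P.convex_T.segment_subset hxT hyT).trans fun z hz => P.mem_S_T hz
  have hcs : c * c' + s * s' > -1 := by
    refine lt_of_le_of_ne ?_ (Ne.symm hne)
    nlinarith [sq_nonneg (c + c'), sq_nonneg (s + s')]
  have h4 : dist (P.X δ c s) (P.X δ c' s') < 2 * δ := by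
    have h5 : dist (P.X δ c s) (P.X δ c' s') ^ 2 = δ ^ 2 * (2 - 2 * (c * c' + s * s')) := by
      rw [dist_eq_norm, norm_sq_eq, P.X_eq_T δ3, P.X_eq_T δ4]
      simp only [XT, PiLp.sub_apply, Matrix.cons_val_zero, Matrix.cons_val_one, Matrix.cons_val]
      have e1 : (δ * c - P.m) / P.A - (δ * c' - P.m) / P.A = δ * (c - c') / P.A := by ring
      have e2 : P.H - P.m * ((δ * c - P.m) / P.A) - (P.H - P.m * ((δ * c' - P.m) / P.A))
        = - P.m * (δ * (c - c') / P.A) := by ring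
      rw [e1, e2]
      field_simp
      linear_combination P.A ^ 2 * h + P.A ^ 2 * h' - (c - c') ^ 2 * P.hA
    refine lt_of_pow_lt_pow_left₀ 2 (by positivity) ?_
    rw [h5]
    nlinarith [sq_pos_of_pos δ0]
  calc intrinsicDist P.S (P.X r c s) (P.X r' c' s')
      ≤ intrinsicDist P.S (P.X r c s) (P.X δ c s) +
        (intrinsicDist P.S (P.X δ c s) (P.X δ c' s')
          + intrinsicDist P.S (P.X δ c' s') (P.X r' c' s')) :=
        (intrinsicDist_triangle P.S _ (P.X δ c s) _).trans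
          (by gcongr; exact intrinsicDist_triangle P.S _ _ _)
    _ ≤ ENNReal.ofReal |r - δ| + (ENNReal.ofReal (dist (P.X δ c s) (P.X δ c' s'))
          + ENNReal.ofReal |δ - r'|) := by
        rw [edist_dist] at h3
        gcongr
    _ = ENNReal.ofReal (|r - δ| + (dist (P.X δ c s) (P.X δ c' s') + |δ - r'|)) := by
        rw [ENNReal.ofReal_add (by positivity) (by positivity),
          ENNReal.ofReal_add (by positivity) (by positivity)]
    _ < ENNReal.ofReal (r + r') := by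
        rw [ENNReal.ofReal_lt_ofReal_iff (by positivity), abs_of_nonneg (by linarith),
          abs_of_nonpos (by linarith)]
        linarith

/-- The antipode of the point with parameters `(r, c, s)`. -/
theorem antipodes_X (h : c ^ 2 + s ^ 2 = 1) {r : ℝ} (hr : r ∈ Icc 0 (2 * P.ρ)) :
    antipodes P.S (P.X r c s) = {P.X (2 * P.ρ - r) (-c) (-s)} := by
  have hρ := P.ρ_pos
  have hneg : (-c) ^ 2 + (-s) ^ 2 = 1 := by simpa using h
  have hr2 : 2 * P.ρ - r ∈ Icc 0 (2 * P.ρ) := ⟨by linarith [hr.2], by linarith [hr.1]⟩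
  have hlow : ENNReal.ofReal (2 * P.ρ) ≤
      intrinsicDist P.S (P.X r c s) (P.X (2 * P.ρ - r) (-c) (-s)) :=
    P.lower (P.Ψ_antipode h hr)
  ext q
  rw [mem_singleton_iff]
  constructor
  · rintro ⟨hqS, hq⟩
    obtain ⟨r', c', s', hr', h', rfl⟩ := P.exists_X hqS
    have h1 : ENNReal.ofReal (2 * P.ρ) ≤ intrinsicDist P.S (P.X r c s) (P.X r' c' s') :=
      hlow.trans (hq _ (P.X_mem hneg hr2))
    obtain ⟨h2, h3⟩ := P.upper h h' hr hr'
    have h4 : 2 * P.ρ ≤ r + r' := by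
      have := h1.trans h2
      rwa [ENNReal.ofReal_le_ofReal_iff (by linarith [hr.1, hr'.1])] at this
    have h5 : r + r' ≤ 2 * P.ρ := by
      have := h1.trans h3
      rw [ENNReal.ofReal_le_ofReal_iff (by linarith [hr.2, hr'.2])] at this
      linarith
    have h6 : r' = 2 * P.ρ - r := by linarith
    rcases eq_or_lt_of_le hr.1 with h0 | h0
    · have : r' = 2 * P.ρ := by rw [h6, ← h0]; ring
      rw [this, ← h0, sub_zero]
      exact P.X_end h' hneg
    rcases eq_or_lt_of_le hr'.1 with h0' | h0'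
    · rw [← h6, ← h0']
      exact P.X_zero h' hneg
    have h7 : c * c' + s * s' = -1 := by
      by_contra hne
      have := P.shortcut h h' hr hr' h0 h0' hne
      rw [show r + r' = 2 * P.ρ by linarith] at this
      exact absurd h1 (not_le.2 this)
    have h8 : (c + c') ^ 2 + (s + s') ^ 2 = 0 := by linear_combination h + h' + 2 * h7
    have h9 : c' = -c := by nlinarith [sq_nonneg (c + c'), sq_nonneg (s + s')]
    have h10 : s' = -s := by nlinarith [sq_nonneg (c + c'), sq_nonneg (s + s')]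
    rw [h6, h9, h10]
  · rintro rfl
    refine ⟨P.X_mem hneg hr2, ?_⟩
    intro x hx
    obtain ⟨r', c', s', hr', h', rfl⟩ := P.exists_X hx
    exact (P.upper_two_rho h h' hr hr').trans hlow

theorem steinhaus {p : E3} (hp : p ∈ P.S) :
    ∃ q, antipodes P.S p = {q} ∧ antipodes P.S q = {p} := by
  obtain ⟨r, c, s, hr, h, rfl⟩ := P.exists_X hp
  have hneg : (-c) ^ 2 + (-s) ^ 2 = 1 := by simpa using h
  have hr2 : 2 * P.ρ - r ∈ Icc 0 (2 * P.ρ) := ⟨by linarith [hr.2], by linarith [hr.1]⟩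
  refine ⟨_, P.antipodes_X h hr, ?_⟩
  rw [P.antipodes_X hneg hr2]
  simp

end Par
end Pool.Agent.MP_324c12_gt
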