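import Mathlib
import Pool.Agent.MP_324c12_gt.Part6

set_option autoImplicit false

open Set Filter Topology InnerProductGeometry
open scoped ENNReal NNReal RealInnerProductSpace

namespace Pool.Agent.MP_324c12_gt

/-- Rodrigues matrix for the unit vector `u`, with `c = cos t`, `s = sin t` -/
noncomputable def rotMat (u : E3) (c s : ℝ) : Matrix (Fin 3) (Fin 3) ℝ :=
  !![c + (1 - c) * u 0 * u 0, (1 - c) * u 0 * u 1 - s * u 2, (1 - c) * u 0 * u 2 + s * u 1;
     (1 - c) * u 1 * u 0 + s * u 2, c + (1 - c) * u 1 * u 1, (1 - c) * u 1 * u 2 - s * u 0;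
     (1 - c) * u 2 * u 0 - s * u 1, (1 - c) * u 2 * u 1 + s * u 0, c + (1 - c) * u 2 * u 2]

/-- explicit rotation -/
noncomputable def rotFun (u : E3) (c s : ℝ) (v : E3) : E3 :=
  !₂[c * v 0 + (1 - c) * (u 0 * v 0 + u 1 * v 1 + u 2 * v 2) * u 0 + s * (u 1 * v 2 - u 2 * v 1),
     c * v 1 + (1 - c) * (u 0 * v 0 + u 1 * v 1 + u 2 * v 2) * u 1 + s * (u 2 * v 0 - u 0 * v 2),
     c * v 2 + (1 - c) * (u 0 * v 0 + u 1 * v 1 + u 2 * v 2) * u 2 + s * (u 0 * v 1 - u 1 * v 0)]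

theorem det_rotMat (u : E3) (c s : ℝ) : (rotMat u c s).det =
    (c + (1 - c) * (u 0 ^ 2 + u 1 ^ 2 + u 2 ^ 2)) * (c ^ 2 + s ^ 2 * (u 0 ^ 2 + u 1 ^ 2 + u 2 ^ 2)) := by
  rw [Matrix.det_fin_three]
  simp [rotMat]
  ring

theorem applyMatrix_rotMat (u : E3) (c s : ℝ) (v : E3) :
    applyMatrix (rotMat u c s) v = rotFun u c s v := by
  ext i
  unfold applyMatrix
  fin_cases i <;> simp [rotMat, rotFun, Matrix.mulVec, dotProduct, Fin.sum_univ_three] <;> ring

theorem exists_rotation {u : E3} {c s : ℝ} (hu : u 0 ^ 2 + u 1 ^ 2 + u 2 ^ 2 = 1)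
    (hcs : c ^ 2 + s ^ 2 = 1) : rotMat u c s ∈ Matrix.specialOrthogonalGroup (Fin 3) ℝ := by
  rw [Matrix.mem_specialOrthogonalGroup_iff]
  constructor
  · rw [Matrix.mem_orthogonalGroup_iff]
    ext i j
    fin_cases i <;> fin_cases j <;>
      simp [rotMat, Matrix.mul_apply, Fin.sum_univ_three]
    · linear_combination (s ^ 2 + (1 - c) ^ 2 * u 0 * u 0) * hu + (1 - u 0 * u 0) * hcs
    · linear_combination ((1 - c) ^ 2 * u 0 * u 1) * hu + (- u 0 * u 1) * hcs
    · linear_combination ((1 - c) ^ 2 * u 0 * u 2) * hu + (- u 0 * u 2) * hcs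
    · linear_combination ((1 - c) ^ 2 * u 1 * u 0) * hu + (- u 1 * u 0) * hcs
    · linear_combination (s ^ 2 + (1 - c) ^ 2 * u 1 * u 1) * hu + (1 - u 1 * u 1) * hcs
    · linear_combination ((1 - c) ^ 2 * u 1 * u 2) * hu + (- u 1 * u 2) * hcs
    · linear_combination ((1 - c) ^ 2 * u 2 * u 0) * hu + (- u 2 * u 0) * hcs
    · linear_combination ((1 - c) ^ 2 * u 2 * u 1) * hu + (- u 2 * u 1) * hcs
    · linear_combination (s ^ 2 + (1 - c) ^ 2 * u 2 * u 2) * hu + (1 - u 2 * u 2) * hcs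
  · rw [det_rotMat, hu, mul_one, mul_one, hcs]
    ring

namespace Par
variable (P : Par)

/-- near a relative interior point of a flat face (`σ = 1`: upper, `σ = -1`: lower) the surface is
contained in the plane of the face -/
theorem local_plane {σ : ℝ} (hσ : σ = 1 ∨ σ = -1) {x : E3} (hx1 : x 0 ^ 2 + x 1 ^ 2 < 1)
    (hx2 : x 2 = σ * (P.H - P.m * x 0)) {y : ℝ → E3} (hy : Continuous y) (hy0 : y 0 = x)
    (hyS : ∀ t, y t ∈ P.S) :
    ∀ᶠ t in 𝓝 (0 : ℝ), σ * (y t) 2 + P.m * (y t) 0 = P.H := by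
  have hpos := P.height_pos hx1.le
  have c0 : Continuous fun t => (y t) 0 ^ 2 + (y t) 1 ^ 2 := by fun_prop
  have c1 : Continuous fun t => σ * (y t) 2 := by fun_prop
  have e0 : ∀ᶠ t in 𝓝 (0 : ℝ), (y t) 0 ^ 2 + (y t) 1 ^ 2 < 1 :=
    c0.continuousAt.eventually_lt continuousAt_const (by simpa [hy0] using hx1)
  have hσσ : σ * σ = 1 := by rcases hσ with h | h <;> rw [h] <;> norm_num
  have e1 : ∀ᶠ t in 𝓝 (0 : ℝ), 0 < σ * (y t) 2 := by
    refine continuousAt_const.eventually_lt c1.continuousAt ?_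
    rw [hy0, hx2, ← mul_assoc, hσσ, one_mul]
    exact hpos
  filter_upwards [e0, e1] with t h0 h1
  have h2 := P.height_pos h0.le
  rcases P.mem_S.1 (hyS t) with h | h | h
  · rcases hσ with h3 | h3
    · rw [h3, h.2]; ring
    · rw [h3, h.2] at h1; linarith
  · exact absurd h.1 h0.ne
  · rcases hσ with h3 | h3
    · rw [h3, h.2] at h1; linarith
    · rw [h3, h.2]; ring

/-- consequence of rotational symmetry at a relative interior point of a flat face -/
theorem rot_face {c u : E3} (hu : u 0 ^ 2 + u 1 ^ 2 + u 2 ^ 2 = 1)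
    (hinv : ∀ t : ℝ, ∀ x ∈ P.S, c + rotFun u (Real.cos t) (Real.sin t) (x - c) ∈ P.S)
    {σ : ℝ} (hσ : σ = 1 ∨ σ = -1) {x : E3} (hx1 : x 0 ^ 2 + x 1 ^ 2 < 1)
    (hx2 : x 2 = σ * (P.H - P.m * x 0)) :
    σ * (u 0 * (x 1 - c 1) - u 1 * (x 0 - c 0)) + P.m * (u 1 * (x 2 - c 2) - u 2 * (x 1 - c 1))
      = 0 := by
  have hxS : x ∈ P.S := by
    rcases hσ with h | h
    · exact P.mem_S_T ⟨hx1.le, by rw [hx2, h, one_mul]⟩
    · exact P.mem_S_B ⟨hx1.le, by rw [hx2, h]; ring⟩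
  set y : ℝ → E3 := fun t => c + rotFun u (Real.cos t) (Real.sin t) (x - c) with hy
  have hyc : Continuous y := by
    have h1 : Continuous fun t : ℝ => rotFun u (Real.cos t) (Real.sin t) (x - c) := by
      unfold rotFun
      fun_prop
    exact continuous_const.add h1
  have hy0 : y 0 = x := by
    apply Par.ext3 <;> simp [hy, rotFun]
  have h := P.local_plane hσ hx1 hx2 hyc hy0 (fun t => hinv t x hxS)
  have hneg : ∀ᶠ t in 𝓝 (0 : ℝ), σ * (y (-t)) 2 + P.m * (y (-t)) 0 = P.H := by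
    have : Tendsto (fun t : ℝ => -t) (𝓝 0) (𝓝 0) := by
      have := (continuous_neg (G := ℝ)).tendsto 0
      simpa using this
    exact this.eventually h
  have hpi : ∀ᶠ t in 𝓝 (0 : ℝ), t < Real.pi := eventually_lt_nhds Real.pi_pos
  have hall := ((h.and hneg).and hpi).filter_mono nhdsWithin_le_nhds
    |>.and (self_mem_nhdsWithin (s := Ioi (0 : ℝ)))
  obtain ⟨t, ⟨⟨h1, h2⟩, h3⟩, h4⟩ := (hall : ∀ᶠ t in 𝓝[>] (0 : ℝ), _).exists
  have hs : 0 < Real.sin t := Real.sin_pos_of_pos_of_lt_pi h4 h3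
  simp only [hy, rotFun, PiLp.add_apply, PiLp.sub_apply, Matrix.cons_val_zero,
    Matrix.cons_val_one, Matrix.cons_val, Real.cos_neg, Real.sin_neg] at h1 h2
  have h5 : Real.sin t * (σ * (u 0 * (x 1 - c 1) - u 1 * (x 0 - c 0))
      + P.m * (u 1 * (x 2 - c 2) - u 2 * (x 1 - c 1))) = 0 := by
    linear_combination (h1 - h2) / 2
  exact (mul_eq_zero.1 h5).resolve_left hs.ne'

theorem not_revolution : ¬ IsSurfaceOfRevolution P.S := by
  rintro ⟨c, w, hw, hrot⟩
  have hm := P.hm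
  set u : E3 := ‖w‖⁻¹ • w with hu
  have hwn : 0 < ‖w‖ := norm_pos_iff.2 hw
  have hu1 : ‖u‖ = 1 := by
    rw [hu, norm_smul, norm_inv, norm_norm, inv_mul_cancel₀ hwn.ne']
  have hu2 : u 0 ^ 2 + u 1 ^ 2 + u 2 ^ 2 = 1 := by
    rw [← norm_sq_eq, hu1]; norm_num
  have hwu : w = ‖w‖ • u := by
    rw [hu, smul_smul, mul_inv_cancel₀ hwn.ne', one_smul]
  have hinv : ∀ t : ℝ, ∀ x ∈ P.S, c + rotFun u (Real.cos t) (Real.sin t) (x - c) ∈ P.S := by
    intro t x hx
    have hR1 := exists_rotation hu2 (Real.cos_sq_add_sin_sq t)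
    have hR2 := applyMatrix_rotMat u (Real.cos t) (Real.sin t)
    have hRu : applyMatrix (rotMat u (Real.cos t) (Real.sin t)) u = u := by
      rw [hR2]
      apply Par.ext3
      · simp only [rotFun, Matrix.cons_val_zero]
        linear_combination (1 - Real.cos t) * u 0 * hu2
      · simp only [rotFun, Matrix.cons_val_one, Matrix.cons_val_zero]
        linear_combination (1 - Real.cos t) * u 1 * hu2
      · simp only [rotFun, Matrix.cons_val]
        linear_combination (1 - Real.cos t) * u 2 * hu2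
    have hRw : applyMatrix (rotMat u (Real.cos t) (Real.sin t)) w = w := by
      have h1 : applyMatrix (rotMat u (Real.cos t) (Real.sin t)) (‖w‖ • u)
          = ‖w‖ • applyMatrix (rotMat u (Real.cos t) (Real.sin t)) u := by
        unfold applyMatrix
        rw [WithLp.ofLp_smul, Matrix.mulVec_smul, WithLp.toLp_smul]
      rw [hwu, h1, hRu]
    have h := hrot _ hR1 hRw
    rw [← h]
    exact ⟨x, hx, by simp only; rw [hR2]⟩
  -- three points on each face
  have face : ∀ σ : ℝ, σ = 1 ∨ σ = -1 → u 1 = 0 ∧ σ * u 0 = P.m * u 2 := by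
    intro σ hσ
    have hσσ : σ * σ = 1 := by rcases hσ with h | h <;> rw [h] <;> norm_num
    have a0 := P.rot_face hu2 hinv hσ (x := !₂[0, 0, σ * P.H]) (by simp) (by simp)
    have a1 := P.rot_face hu2 hinv hσ (x := !₂[1 / 2, 0, σ * (P.H - P.m * (1 / 2))])
      (by simp; norm_num) (by simp)
    have a2 := P.rot_face hu2 hinv hσ (x := !₂[0, 1 / 2, σ * P.H]) (by simp; norm_num) (by simp)
    simp at a0 a1 a2
    have b1 : σ * u 1 * (1 + P.m ^ 2) = 0 := by linear_combination 2 * (a0 - a1)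
    have b2 : σ * u 0 - P.m * u 2 = 0 := by linear_combination 2 * (a2 - a0)
    constructor
    · have h1 : (1 + P.m ^ 2) ≠ 0 := by positivity
      have h2 := (mul_eq_zero.1 b1).resolve_right h1
      have h3 : σ ≠ 0 := by rintro rfl; norm_num at hσσ
      exact (mul_eq_zero.1 h2).resolve_left h3
    · linarith
  obtain ⟨f1, f2⟩ := face 1 (Or.inl rfl)
  obtain ⟨_, f3⟩ := face (-1) (Or.inr rfl)
  have f4 : u 0 = 0 := by linarith
  have f5 : P.m * u 2 = 0 := by rw [← f2, f4]; ring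
  have f6 : u 2 = 0 := (mul_eq_zero.1 f5).resolve_left hm.ne'
  rw [f1, f4, f6] at hu2
  norm_num at hu2

end Par

end Pool.Agent.MP_324c12_gt
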